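import Pool.Agent.Lib.RD.Defs

/-!
MP_0db6a9_al, module Clos (paper: team-store MP_0db6a9_al_paper.md).
algSub_of_superClosed: for `t : Fin r → M` the relative algebraic closure of `k(t)` in `K`
(`algebraicClosure (adjoin k (range t)) K`, algebraically closed because `K` is) is contained in `M`; transport it to a
subfield of `M`. stage_mono: `y ∈ stage s` is in `bracket (fun _ => y)` (`r ≥ 1`). superClosed_Mr: `stage` is monotone, so
`Mr` is a directed union; finitely many `t j ∈ Mr` lie in one `stage s`, and then `y ∈ bracket t ≤ stage (s+1) ≤ Mr`.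
-/

namespace Pool.Agent.RD

open Polynomial

private theorem mem_bracket {k K : Type*} [Field k] [Field K] [Algebra k K] {r : ℕ}
    (t : Fin r → K) (y : K) :
    y ∈ bracket k K t ↔ IsAlgebraic (IntermediateField.adjoin k (Set.range t)) y := by
  rw [bracket, IntermediateField.mem_restrictScalars]
  exact mem_algebraicClosure_iff

private theorem bracket_le_stage {k K : Type*} [Field k] [Field K] [Algebra k K] {n : ℕ}
    (x : Fin n → K) (r s : ℕ) (t : Fin r → K) (ht : ∀ j, t j ∈ stage k K x r s) :
    bracket k K t ≤ stage k K x r (s + 1) := by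
  rw [stage]
  exact le_iSup (fun t : {t : Fin r → K // ∀ j, t j ∈ stage k K x r s} => bracket k K t.1)
    ⟨t, ht⟩

/-- CLOS: a field closed under algebraic functions of `r` variables has `AlgSub`. -/
theorem algSub_of_superClosed {k K : Type*} [Field k] [Field K] [Algebra k K] [IsAlgClosed K]
    (r : ℕ) (M : IntermediateField k K) (hM : SuperClosed k K r M) : AlgSub M r := by
  intro t
  let F₀ : IntermediateField k K := IntermediateField.adjoin k (Set.range fun j => (t j : K))
  let A : IntermediateField F₀ K := algebraicClosure F₀ K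
  have hA : IsAlgClosed A := (inferInstance : IsAlgClosure F₀ A).isAlgClosed
  have hAM : ∀ y : K, y ∈ A → y ∈ M := by
    intro y hy
    exact hM (fun j => (t j : K)) (fun j => (t j).2) y (mem_algebraicClosure_iff.1 hy)
  let F : Subfield M := A.toSubfield.comap (algebraMap M K)
  have hF : ∀ m : M, m ∈ F ↔ (m : K) ∈ A := fun m => Iff.rfl
  let e : A ≃+* F :=
    { toFun := fun a => ⟨⟨(a : K), hAM _ a.2⟩, a.2⟩
      invFun := fun f => ⟨((f : M) : K), (hF _).1 f.2⟩
      left_inv := fun a => rfl
      right_inv := fun f => rfl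
      map_mul' := fun a b => rfl
      map_add' := fun a b => rfl }
  refine ⟨F, IsAlgClosed.of_ringEquiv A F e, fun j => ?_⟩
  rw [hF]
  have hj : ((t j : M) : K) ∈ F₀ :=
    IntermediateField.subset_adjoin k _ (Set.mem_range_self j)
  have := isAlgebraic_algebraMap (R := F₀) (A := K) (⟨(t j : K), hj⟩ : F₀)
  exact mem_algebraicClosure_iff.2 this

/-- CLOS: the fields `M_r^s` increase. -/
theorem stage_mono {k K : Type*} [Field k] [Field K] [Algebra k K] {n : ℕ}
    (x : Fin n → K) (r : ℕ) (hr : 1 ≤ r) : Monotone (stage k K x r) := by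
  refine monotone_nat_of_le_succ fun s => ?_
  intro y hy
  refine bracket_le_stage x r s (fun _ => y) (fun _ => hy) ?_
  rw [mem_bracket]
  have hj : y ∈ IntermediateField.adjoin k (Set.range fun _ : Fin r => y) :=
    IntermediateField.subset_adjoin k _ ⟨⟨0, hr⟩, rfl⟩
  exact isAlgebraic_algebraMap
    (⟨y, hj⟩ : IntermediateField.adjoin k (Set.range fun _ : Fin r => y))

/-- CLOS: `M_r` is closed under algebraic functions of `r` variables. -/
theorem superClosed_Mr {k K : Type*} [Field k] [Field K] [Algebra k K] {n : ℕ}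
    (x : Fin n → K) (r : ℕ) (hr : 1 ≤ r) : SuperClosed k K r (Mr k K x r) := by
  intro t ht y hy
  have hmono := stage_mono (k := k) x r hr
  have hdir : Directed (· ≤ ·) (stage k K x r) := hmono.directed_le
  have hex : ∀ j, ∃ s, t j ∈ stage k K x r s := by
    intro j
    have h := ht j
    rw [Mr] at h
    have h2 : t j ∈ ((⨆ s, stage k K x r s : IntermediateField k K) : Set K) := h
    rw [IntermediateField.coe_iSup_of_directed hdir] at h2
    exact Set.mem_iUnion.1 h2
  choose f hf using hex
  have hs : ∀ j, t j ∈ stage k K x r (Finset.univ.sup f) := fun j =>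
    hmono (Finset.le_sup (Finset.mem_univ j)) (hf j)
  have h1 : y ∈ bracket k K t := (mem_bracket t y).2 hy
  have h2 : y ∈ stage k K x r (Finset.univ.sup f + 1) := bracket_le_stage x r _ t hs h1
  rw [Mr]
  exact (le_iSup (stage k K x r) (Finset.univ.sup f + 1)) h2

end Pool.Agent.RD
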