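import Pool.Agent.Lib.RD.Defs

/-!
MP_0db6a9_al, module AForm (paper: team-store MP_0db6a9_al_paper.md).
Expand `(∑ x_i v^i)^e = ∑ over functions f : Fin e → Fin (m+1) of ∏ x_(f j) * v^(∑ f j)` (Finset.prod_univ_sum or
`Finset.sum_pow_eq_sum_piAntidiag`), take traces: `g = ∑_f C(p_(∑ f)(v)) * ∏_j X_(f j)`, the exponents are at most `e * m`.
-/

namespace Pool.Agent.RD

open Polynomial

/-- ASTEP0: the power sums of `∑ x_i v^i` as homogeneous polynomials in `x` with coefficients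
among the power sums of `v`. -/
theorem astep_form {M L : Type*} [Field M] [Field L] [Algebra M L] [FiniteDimensional M L]
    (F : Subfield M) (m e : ℕ) (v : L)
    (hF : ∀ i ≤ e * m, Algebra.trace M L (v ^ i) ∈ F) :
    ∃ g : MvPolynomial (Fin (m + 1)) F, g.IsHomogeneous e ∧
      ∀ x : Fin (m + 1) → F,
        ((MvPolynomial.eval x g : F) : M) =
          Algebra.trace M L ((∑ i, algebraMap M L (x i : M) * v ^ (i : ℕ)) ^ e) := by
  have hle : ∀ f : Fin e → Fin (m + 1), ∑ j, ((f j : Fin (m + 1)) : ℕ) ≤ e * m := by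
    intro f
    calc ∑ j, ((f j : Fin (m + 1)) : ℕ) ≤ ∑ _j : Fin e, m :=
          Finset.sum_le_sum fun j _ => Nat.lt_succ_iff.mp (f j).isLt
      _ = e * m := by simp
  refine ⟨∑ f : Fin e → Fin (m + 1),
    MvPolynomial.C (⟨Algebra.trace M L (v ^ (∑ j, ((f j : Fin (m + 1)) : ℕ))), hF _ (hle f)⟩ : F) *
      ∏ j, MvPolynomial.X (f j), ?_, ?_⟩
  · refine MvPolynomial.IsHomogeneous.sum _ _ _ fun f _ => ?_
    have h1 : (∏ j : Fin e, (MvPolynomial.X (f j) : MvPolynomial (Fin (m + 1)) F)).IsHomogeneous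
        (∑ _j : Fin e, 1) :=
      MvPolynomial.IsHomogeneous.prod _ _ _ fun j _ => MvPolynomial.isHomogeneous_X _ _
    have h2 := (MvPolynomial.isHomogeneous_C (Fin (m + 1))
      (⟨Algebra.trace M L (v ^ (∑ j, ((f j : Fin (m + 1)) : ℕ))), hF _ (hle f)⟩ : F)).mul h1
    simpa using h2
  · intro x
    have h1 : (∑ i, algebraMap M L (x i : M) * v ^ (i : ℕ)) ^ e
        = ∑ f : Fin e → Fin (m + 1),
            (∏ j, ((x (f j) : F) : M)) • v ^ (∑ j, ((f j : Fin (m + 1)) : ℕ)) := by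
      have h2 : (∑ i, algebraMap M L (x i : M) * v ^ (i : ℕ)) ^ e
          = ∏ _j : Fin e, ∑ i : Fin (m + 1), algebraMap M L (x i : M) * v ^ (i : ℕ) := by
        simp
      rw [h2, Finset.prod_univ_sum, Fintype.piFinset_univ]
      refine Finset.sum_congr rfl fun f _ => ?_
      rw [Finset.prod_mul_distrib, Finset.prod_pow_eq_pow_sum, Algebra.smul_def, map_prod]
    rw [h1, map_sum, map_sum]
    simp only [map_mul, MvPolynomial.eval_C, map_prod, MvPolynomial.eval_X, map_smul, smul_eq_mul]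
    push_cast
    refine Finset.sum_congr rfl fun f _ => ?_
    rw [mul_comm]

end Pool.Agent.RD
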