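import Pool.Agent.Lib.RD.Defs

/-!
MP_0db6a9_al, module Newton (paper: team-store MP_0db6a9_al_paper.md).
Newton's identities in characteristic 0 for the polynomial `∏_σ (X - σ u)` (product over the embeddings of `L` over `M`
into an algebraic closure); its coefficients are fixed by the Galois group, so they lie in `M`.
-/

namespace Pool.Agent.RD

open Polynomial

/-- the elementary symmetric functions vanish if the power sums do -/
private theorem esymm_zero {τ E : Type*} [Fintype τ] [Field E] [CharZero E] (y : τ → E) (c : ℕ)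
    (h : ∀ e, 1 ≤ e → e ≤ c → ∑ s, y s ^ e = 0) {k : ℕ} (hk1 : 1 ≤ k) (hkc : k ≤ c) :
    (Finset.univ.val.map y).esymm k = 0 := by
  have h1 := congrArg (MvPolynomial.aeval y) (MvPolynomial.mul_esymm_eq_sum τ E k)
  rw [map_mul, map_mul, map_sum, MvPolynomial.aeval_esymm_eq_multiset_esymm, map_natCast] at h1
  have h2 : ∑ a ∈ (Finset.HasAntidiagonal.antidiagonal k).filter (fun a : ℕ × ℕ => a.1 < k),
      (MvPolynomial.aeval y) ((-1) ^ a.1 * MvPolynomial.esymm τ E a.1 *
        MvPolynomial.psum τ E a.2) = 0 := by
    refine Finset.sum_eq_zero fun a ha => ?_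
    rw [Finset.mem_filter, Finset.HasAntidiagonal.mem_antidiagonal] at ha
    have h3 : (MvPolynomial.aeval y) (MvPolynomial.psum τ E a.2) = 0 := by
      unfold MvPolynomial.psum
      rw [map_sum]
      simp only [map_pow, MvPolynomial.aeval_X]
      exact h a.2 (by omega) (by omega)
    rw [map_mul, h3, mul_zero]
  rw [h2, mul_zero] at h1
  rcases mul_eq_zero.1 h1 with h3 | h3
  · exact absurd (Nat.cast_eq_zero.1 h3) (by omega)
  · exact h3

private theorem map_prod_X_sub {E : Type*} [Field E] (f : E →+* E) (s : Multiset E) :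
    ((s.map fun t => X - C t).prod).map f = ((s.map f).map fun t => X - C t).prod := by
  rw [Polynomial.map_multiset_prod, Multiset.map_map, Multiset.map_map]
  congr 1
  refine Multiset.map_congr rfl fun t _ => ?_
  simp

/-- NEWTON: if the first `c` power sums vanish then the first `c` coefficients of the
characteristic polynomial vanish. -/
theorem newton_relation {M L : Type*} [Field M] [Field L] [Algebra M L]
    [FiniteDimensional M L] [CharZero M] (c : ℕ) (u : L)
    (hu : ∀ e, 1 ≤ e → e ≤ c → Algebra.trace M L (u ^ e) = 0) :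
    ∃ a : ℕ → M, u ^ (Module.finrank M L) =
      ∑ i ∈ Finset.range (Module.finrank M L - c), algebraMap M L (a i) * u ^ i := by
  classical
  have : CharZero (AlgebraicClosure M) :=
    charZero_of_injective_algebraMap (algebraMap M (AlgebraicClosure M)).injective
  set E := AlgebraicClosure M with hE
  set N := Module.finrank M L with hN
  set s : Multiset E := (Finset.univ : Finset (L →ₐ[M] E)).val.map fun σ => σ u with hs
  have hcard : s.card = N := by
    rw [hs, Multiset.card_map]
    change Fintype.card (L →ₐ[M] E) = N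
    exact AlgHom.card M L E
  have hes : ∀ k, 1 ≤ k → k ≤ c → s.esymm k = 0 := by
    intro k h1 h2
    refine esymm_zero (fun σ : L →ₐ[M] E => σ u) c (fun e he1 he2 => ?_) h1 h2
    have h3 := trace_eq_sum_embeddings (K := M) (L := L) E (x := u ^ e)
    rw [hu e he1 he2, map_zero] at h3
    rw [h3]
    exact Finset.sum_congr rfl fun σ _ => (map_pow σ u e).symm
  set Q : E[X] := (s.map fun t => X - C t).prod with hQ
  -- the coefficients are fixed
  have hfix : ∀ f : E ≃ₐ[M] E, Q.map (f : E →+* E) = Q := by
    intro f
    rw [hQ, map_prod_X_sub]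
    congr 2
    rw [hs, Multiset.map_map]
    have h2 : (Finset.univ : Finset (L →ₐ[M] E)).val.map ((f : E →+* E) ∘ fun σ => σ u) =
        ((Finset.univ : Finset (L →ₐ[M] E)).val.map fun σ => f.toAlgHom.comp σ).map
          fun σ => σ u := by
      rw [Multiset.map_map]
      rfl
    rw [h2]
    congr 1
    let ef : (L →ₐ[M] E) ≃ (L →ₐ[M] E) :=
      { toFun := fun σ => f.toAlgHom.comp σ
        invFun := fun σ => f.symm.toAlgHom.comp σ
        left_inv := fun σ => by
          ext x
          simp
        right_inv := fun σ => by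
          ext x
          simp }
    have h3 := congrArg Finset.val (Finset.map_univ_equiv ef)
    rw [Finset.map_val] at h3
    exact h3
  have hin : ∀ i, ∃ a : M, algebraMap M E a = Q.coeff i := by
    intro i
    have h1 : Q.coeff i ∈ Set.range (algebraMap M E) := by
      rw [InfiniteGalois.mem_range_algebraMap_iff_fixed]
      intro f
      have h2 := congrArg (fun P => Polynomial.coeff P i) (hfix f)
      simp only [Polynomial.coeff_map] at h2
      exact h2
    exact h1
  choose a ha using hin
  have hcoef : ∀ i ≤ N, Q.coeff i = (-1) ^ (N - i) * s.esymm (N - i) := by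
    intro i hi
    have h1 := Multiset.prod_X_sub_C_coeff s (k := i) (by rw [hcard]; exact hi)
    rw [hcard] at h1
    exact h1
  have hmonic : Q.Monic := monic_multiset_prod_of_monic _ _ fun t _ => monic_X_sub_C t
  have hdeg : Q.natDegree = N := by
    rw [hQ, natDegree_multiset_prod_X_sub_C_eq_card, hcard]
  refine ⟨fun i => -a i, ?_⟩
  -- evaluate at `u`
  have halg : Algebra.IsAlgebraic M L := Algebra.IsAlgebraic.of_finite M L
  let σ : L →ₐ[M] E := IsAlgClosed.lift
  have hroot : Q.eval (σ u) = 0 := by
    rw [hQ, eval_multiset_prod, Multiset.map_map]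
    refine Multiset.prod_eq_zero ?_
    rw [Multiset.mem_map]
    refine ⟨σ u, ?_, by simp⟩
    rw [hs, Multiset.mem_map]
    exact ⟨σ, Finset.mem_univ σ, rfl⟩
  rw [eval_eq_sum_range, hdeg, Finset.sum_range_succ] at hroot
  have hlead : Q.coeff N = 1 := by
    rw [← hdeg]
    exact hmonic
  rw [hlead, one_mul] at hroot
  have hsub : ∑ i ∈ Finset.range N, Q.coeff i * σ u ^ i =
      ∑ i ∈ Finset.range (N - c), Q.coeff i * σ u ^ i := by
    symm
    refine Finset.sum_subset (Finset.range_mono (by omega)) fun i hi hi2 => ?_
    rw [Finset.mem_range] at hi hi2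
    rw [hcoef i hi.le, hes (N - i) (by omega) (by omega), mul_zero, zero_mul]
  rw [hsub] at hroot
  have hinj : Function.Injective σ := σ.toRingHom.injective
  apply hinj
  rw [map_pow, map_sum]
  have h1 : ∑ i ∈ Finset.range (N - c), σ (algebraMap M L (-a i) * u ^ i) =
      -∑ i ∈ Finset.range (N - c), Q.coeff i * σ u ^ i := by
    rw [← Finset.sum_neg_distrib]
    refine Finset.sum_congr rfl fun i _ => ?_
    rw [map_mul, map_pow, AlgHom.commutes, map_neg, ha, neg_mul]
  rw [h1]
  exact eq_neg_of_add_eq_zero_right hroot

end Pool.Agent.RD
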