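import Pool.Agent.Lib.RD.AStep
import Pool.Agent.Lib.RD.Newton

/-!
MP_0db6a9_al, module ALast (last step with `r + 1` parameters, idea of helper74: notes of MP_0db6a9_al).
Let `[L : M] = N`, `trace (w^e) ∈ F` for `e < N` with `F` an algebraically closed subfield of `M`. By Newton's identities
`w^N = ∑ a_i w^i` with `a_i ∈ F` for `i ≥ 1` (newton_mem), so `trace (w^n)` is a polynomial in `t = a_0` over `F` of degree at
most `n / N` (trace_poly). For `u = ∑_(i ≤ m) x_i w^i`, `m < N`, `x_i ∈ F`, `trace (u^e)` is a polynomial in `t` of degree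
`< e` whose coefficients are forms of degree `e` in `x` over `F` (alast_form): `1 + 2 + ... + c` forms for `e ≤ c`.
-/

namespace Pool.Agent.RD

open Polynomial

/-- the elementary symmetric functions lie in a subfield if the power sums do -/
private theorem esymm_mem {τ E : Type*} [Fintype τ] [Field E] [CharZero E] (F : Subfield E)
    (y : τ → E) (n : ℕ) (h : ∀ e < n, ∑ s, y s ^ e ∈ F) (k : ℕ) (hkn : k < n) :
    (Finset.univ.val.map y).esymm k ∈ F := by
  induction k using Nat.strong_induction_on with
  | _ k ih =>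
    rcases Nat.eq_zero_or_pos k with rfl | hk0
    · simp only [Multiset.esymm, Multiset.powersetCard_zero_left, Multiset.map_singleton,
        Multiset.prod_zero, Multiset.sum_singleton]
      exact F.one_mem
    have h1 := congrArg (MvPolynomial.aeval y) (MvPolynomial.mul_esymm_eq_sum τ E k)
    rw [map_mul, map_mul, map_sum, MvPolynomial.aeval_esymm_eq_multiset_esymm, map_natCast] at h1
    have h2 : ∑ a ∈ (Finset.HasAntidiagonal.antidiagonal k).filter (fun a : ℕ × ℕ => a.1 < k),
        (MvPolynomial.aeval y) ((-1) ^ a.1 * MvPolynomial.esymm τ E a.1 *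
          MvPolynomial.psum τ E a.2) ∈ F := by
      refine F.sum_mem fun a ha => ?_
      rw [Finset.mem_filter, Finset.HasAntidiagonal.mem_antidiagonal] at ha
      have h3 : (MvPolynomial.aeval y) (MvPolynomial.psum τ E a.2) ∈ F := by
        unfold MvPolynomial.psum
        rw [map_sum]
        simp only [map_pow, MvPolynomial.aeval_X]
        exact h a.2 (by omega)
      rw [map_mul, map_mul, MvPolynomial.aeval_esymm_eq_multiset_esymm]
      refine F.mul_mem (F.mul_mem ?_ (ih a.1 ha.2 (by omega))) h3
      rw [map_pow, map_neg, map_one]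
      exact F.pow_mem (F.neg_mem F.one_mem) _
    have hk' : (k : E) ≠ 0 := Nat.cast_ne_zero.2 hk0.ne'
    have h4 : (Finset.univ.val.map y).esymm k =
        (k : E)⁻¹ * ((k : E) * (Finset.univ.val.map y).esymm k) := by
      rw [inv_mul_cancel_left₀ hk']
    rw [h4, h1]
    refine F.mul_mem (F.inv_mem (natCast_mem F k)) (F.mul_mem ?_ h2)
    rw [map_pow, map_neg, map_one]
    exact F.pow_mem (F.neg_mem F.one_mem) _

private theorem map_prod_X_sub' {E : Type*} [Field E] (f : E →+* E) (s : Multiset E) :
    ((s.map fun t => X - C t).prod).map f = ((s.map f).map fun t => X - C t).prod := by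
  rw [Polynomial.map_multiset_prod, Multiset.map_map, Multiset.map_map]
  congr 1
  refine Multiset.map_congr rfl fun t _ => ?_
  simp

/-- NEWTON with a subfield: the nonconstant coefficients of the characteristic polynomial lie in
`F` if the power sums of exponents less than the degree do. -/
theorem newton_mem {M L : Type*} [Field M] [Field L] [Algebra M L]
    [FiniteDimensional M L] [CharZero M] (F : Subfield M) (u : L)
    (hu : ∀ e < Module.finrank M L, Algebra.trace M L (u ^ e) ∈ F) :
    ∃ a : ℕ → M, (∀ i, 1 ≤ i → i < Module.finrank M L → a i ∈ F) ∧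
      u ^ (Module.finrank M L) =
        ∑ i ∈ Finset.range (Module.finrank M L), algebraMap M L (a i) * u ^ i := by
  classical
  have : CharZero (AlgebraicClosure M) :=
    charZero_of_injective_algebraMap (algebraMap M (AlgebraicClosure M)).injective
  set E := AlgebraicClosure M with hE
  set N := Module.finrank M L with hN
  set s : Multiset E := (Finset.univ : Finset (L →ₐ[M] E)).val.map fun σ => σ u with hs
  have hcard : s.card = N := by
    rw [hs, Multiset.card_map]
    change Fintype.card (L →ₐ[M] E) = N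
    exact AlgHom.card M L E
  have hes : ∀ k < N, s.esymm k ∈ F.map (algebraMap M E) := by
    intro k hk
    refine esymm_mem (F.map (algebraMap M E)) (fun σ : L →ₐ[M] E => σ u) N (fun e he => ?_) k hk
    have h3 := trace_eq_sum_embeddings (K := M) (L := L) E (x := u ^ e)
    have h4 : ∑ σ : L →ₐ[M] E, σ u ^ e = algebraMap M E (Algebra.trace M L (u ^ e)) := by
      rw [h3]
      exact Finset.sum_congr rfl fun σ _ => (map_pow σ u e).symm
    rw [h4]
    exact Subfield.mem_map.2 ⟨_, hu e he, rfl⟩
  set Q : E[X] := (s.map fun t => X - C t).prod with hQ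
  -- the coefficients are fixed
  have hfix : ∀ f : E ≃ₐ[M] E, Q.map (f : E →+* E) = Q := by
    intro f
    rw [hQ, map_prod_X_sub']
    congr 2
    rw [hs, Multiset.map_map]
    have h2 : (Finset.univ : Finset (L →ₐ[M] E)).val.map ((f : E →+* E) ∘ fun σ => σ u) =
        ((Finset.univ : Finset (L →ₐ[M] E)).val.map fun σ => f.toAlgHom.comp σ).map
          fun σ => σ u := by
      rw [Multiset.map_map]
      rfl
    rw [h2]
    congr 1
    let ef : (L →ₐ[M] E) ≃ (L →ₐ[M] E) :=
      { toFun := fun σ => f.toAlgHom.comp σ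
        invFun := fun σ => f.symm.toAlgHom.comp σ
        left_inv := fun σ => by
          ext x
          simp
        right_inv := fun σ => by
          ext x
          simp }
    have h3 := congrArg Finset.val (Finset.map_univ_equiv ef)
    rw [Finset.map_val] at h3
    exact h3
  have hin : ∀ i, ∃ a : M, algebraMap M E a = Q.coeff i := by
    intro i
    have h1 : Q.coeff i ∈ Set.range (algebraMap M E) := by
      rw [InfiniteGalois.mem_range_algebraMap_iff_fixed]
      intro f
      have h2 := congrArg (fun P => Polynomial.coeff P i) (hfix f)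
      simp only [Polynomial.coeff_map] at h2
      exact h2
    exact h1
  choose a ha using hin
  have hcoef : ∀ i ≤ N, Q.coeff i = (-1) ^ (N - i) * s.esymm (N - i) := by
    intro i hi
    have h1 := Multiset.prod_X_sub_C_coeff s (k := i) (by rw [hcard]; exact hi)
    rw [hcard] at h1
    exact h1
  have hmonic : Q.Monic := monic_multiset_prod_of_monic _ _ fun t _ => monic_X_sub_C t
  have hdeg : Q.natDegree = N := by
    rw [hQ, natDegree_multiset_prod_X_sub_C_eq_card, hcard]
  refine ⟨fun i => -a i, fun i h1 h2 => ?_, ?_⟩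
  · refine F.neg_mem ?_
    have h3 : algebraMap M E (a i) ∈ F.map (algebraMap M E) := by
      rw [ha, hcoef i h2.le]
      refine Subfield.mul_mem _ ?_ (hes (N - i) (by omega))
      exact Subfield.pow_mem _ (Subfield.neg_mem _ (Subfield.one_mem _)) _
    obtain ⟨b, hb, hb2⟩ := Subfield.mem_map.1 h3
    rwa [← (algebraMap M E).injective hb2]
  -- evaluate at `u`
  have halg : Algebra.IsAlgebraic M L := Algebra.IsAlgebraic.of_finite M L
  let σ : L →ₐ[M] E := IsAlgClosed.lift
  have hroot : Q.eval (σ u) = 0 := by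
    rw [hQ, eval_multiset_prod, Multiset.map_map]
    refine Multiset.prod_eq_zero ?_
    rw [Multiset.mem_map]
    refine ⟨σ u, ?_, by simp⟩
    rw [hs, Multiset.mem_map]
    exact ⟨σ, Finset.mem_univ σ, rfl⟩
  rw [eval_eq_sum_range, hdeg, Finset.sum_range_succ] at hroot
  have hlead : Q.coeff N = 1 := by
    rw [← hdeg]
    exact hmonic
  rw [hlead, one_mul] at hroot
  have hinj : Function.Injective σ := σ.toRingHom.injective
  apply hinj
  rw [map_pow, map_sum]
  have h1 : ∑ i ∈ Finset.range N, σ (algebraMap M L (-a i) * u ^ i) =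
      -∑ i ∈ Finset.range N, Q.coeff i * σ u ^ i := by
    rw [← Finset.sum_neg_distrib]
    refine Finset.sum_congr rfl fun i _ => ?_
    rw [map_mul, map_pow, AlgHom.commutes, map_neg, ha, neg_mul]
  rw [h1]
  exact eq_neg_of_add_eq_zero_right hroot

/-- the traces of powers as polynomials in the constant coefficient `a 0` -/
theorem trace_poly {M L : Type*} [Field M] [Field L] [Algebra M L] (F : Subfield M) (w : L)
    (N : ℕ) (hN : 0 < N) (a : ℕ → M) (ha : ∀ i, 1 ≤ i → i < N → a i ∈ F)
    (hw : w ^ N = ∑ i ∈ Finset.range N, algebraMap M L (a i) * w ^ i)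
    (hp : ∀ e < N, Algebra.trace M L (w ^ e) ∈ F) (n : ℕ) :
    ∃ Q : F[X], Q.natDegree ≤ n / N ∧ Algebra.trace M L (w ^ n) = aeval (a 0) Q := by
  classical
  induction n using Nat.strong_induction_on with
  | _ n ih =>
    rcases Nat.lt_or_ge n N with hn | hn
    · refine ⟨C ⟨_, hp n hn⟩, ?_, ?_⟩
      · rw [natDegree_C]
        exact Nat.zero_le _
      · rw [aeval_C]
        rfl
    · have ih' : ∀ i : ℕ, i < N → ∃ Q : F[X], Q.natDegree ≤ (n - N + i) / N ∧
          Algebra.trace M L (w ^ (n - N + i)) = aeval (a 0) Q := fun i hi =>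
        ih (n - N + i) (by omega)
      have ih2 : ∀ i : ℕ, ∃ Q : F[X], i < N → (Q.natDegree ≤ (n - N + i) / N ∧
          Algebra.trace M L (w ^ (n - N + i)) = aeval (a 0) Q) := by
        intro i
        by_cases hi : i < N
        · obtain ⟨Q, hQ⟩ := ih' i hi
          exact ⟨Q, fun _ => hQ⟩
        · exact ⟨0, fun h => absurd h hi⟩
      choose Q hQ using ih2
      have hb : ∀ i : ℕ, ∃ B : F[X], i < N → ((i = 0 → B.natDegree ≤ 1) ∧
          (1 ≤ i → B.natDegree = 0) ∧ aeval (a 0) B = a i) := by
        intro i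
        by_cases hi : i < N
        · rcases Nat.eq_zero_or_pos i with rfl | h0
          · exact ⟨X, fun _ => ⟨fun _ => natDegree_X_le, fun h => absurd h (by omega),
              by rw [aeval_X]⟩⟩
          · refine ⟨C ⟨a i, ha i h0 hi⟩, fun _ => ⟨fun h => absurd h (by omega), fun _ =>
              natDegree_C _, ?_⟩⟩
            rw [aeval_C]
            rfl
        · exact ⟨0, fun h => absurd h hi⟩
      choose B hB using hb
      refine ⟨∑ i ∈ Finset.range N, B i * Q i, ?_, ?_⟩
      · refine natDegree_sum_le_of_forall_le _ _ fun i hi => ?_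
        have hi' := Finset.mem_range.1 hi
        obtain ⟨h1, h2, -⟩ := hB i hi'
        have h3 := (hQ i hi').1
        refine natDegree_mul_le.trans ?_
        rcases Nat.eq_zero_or_pos i with rfl | h0
        · have h4 := h1 rfl
          have h5 : (n - N + 0) / N + 1 = n / N := by
            rw [add_zero, ← Nat.add_div_right _ hN, Nat.sub_add_cancel hn]
          omega
        · have h4 := h2 h0
          have h5 : (n - N + i) / N ≤ n / N := Nat.div_le_div_right (by omega)
          omega
      · have h1 : w ^ n = ∑ i ∈ Finset.range N, a i • w ^ (n - N + i) := by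
          have h2 : w ^ n = w ^ (n - N) * w ^ N := by
            rw [← pow_add, Nat.sub_add_cancel hn]
          rw [h2, hw, Finset.mul_sum]
          refine Finset.sum_congr rfl fun i _ => ?_
          rw [Algebra.smul_def, pow_add]
          ring
        rw [h1, map_sum, map_sum]
        refine Finset.sum_congr rfl fun i hi => ?_
        have hi' := Finset.mem_range.1 hi
        rw [map_smul, smul_eq_mul, map_mul, (hQ i hi').2, (hB i hi').2.2]

/-- the power sums of `∑ x_i w^i`, `i ≤ m < N`, as polynomials of degree `< e` in `t` -/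
theorem alast_form {M L : Type*} [Field M] [Field L] [Algebra M L]
    (F : Subfield M) (m e N : ℕ) (hm : m < N) (he : 1 ≤ e) (w : L) (t : M)
    (hQ : ∀ n, ∃ Q : F[X], Q.natDegree ≤ n / N ∧ Algebra.trace M L (w ^ n) = aeval t Q) :
    ∃ g : ℕ → MvPolynomial (Fin (m + 1)) F, (∀ d, (g d).IsHomogeneous e) ∧
      ∀ x : Fin (m + 1) → F,
        Algebra.trace M L ((∑ i, algebraMap M L (x i : M) * w ^ (i : ℕ)) ^ e) =
          ∑ d ∈ Finset.range e, ((MvPolynomial.eval x (g d) : F) : M) * t ^ d := by
  choose Q hQ1 hQ2 using hQ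
  have hle : ∀ f : Fin e → Fin (m + 1),
      (Q (∑ j, ((f j : Fin (m + 1)) : ℕ))).natDegree < e := by
    intro f
    refine (hQ1 _).trans_lt ?_
    have h1 : ∑ j, ((f j : Fin (m + 1)) : ℕ) ≤ e * m := by
      calc ∑ j, ((f j : Fin (m + 1)) : ℕ) ≤ ∑ _j : Fin e, m :=
            Finset.sum_le_sum fun j _ => Nat.lt_succ_iff.mp (f j).isLt
        _ = e * m := by simp
    have h2 : e * m < e * N := Nat.mul_lt_mul_of_pos_left hm he
    exact Nat.div_lt_of_lt_mul (by rw [mul_comm N e]; exact h1.trans_lt h2)
  refine ⟨fun d => ∑ f : Fin e → Fin (m + 1),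
    MvPolynomial.C ((Q (∑ j, ((f j : Fin (m + 1)) : ℕ))).coeff d) *
      ∏ j, MvPolynomial.X (f j), fun d => ?_, ?_⟩
  · refine MvPolynomial.IsHomogeneous.sum _ _ _ fun f _ => ?_
    have h1 : (∏ j : Fin e, (MvPolynomial.X (f j) : MvPolynomial (Fin (m + 1)) F)).IsHomogeneous
        (∑ _j : Fin e, 1) :=
      MvPolynomial.IsHomogeneous.prod _ _ _ fun j _ => MvPolynomial.isHomogeneous_X _ _
    have h2 := (MvPolynomial.isHomogeneous_C (Fin (m + 1))
      ((Q (∑ j, ((f j : Fin (m + 1)) : ℕ))).coeff d)).mul h1
    simpa using h2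
  · intro x
    have h1 : (∑ i, algebraMap M L (x i : M) * w ^ (i : ℕ)) ^ e
        = ∑ f : Fin e → Fin (m + 1),
            (∏ j, ((x (f j) : F) : M)) • w ^ (∑ j, ((f j : Fin (m + 1)) : ℕ)) := by
      have h2 : (∑ i, algebraMap M L (x i : M) * w ^ (i : ℕ)) ^ e
          = ∏ _j : Fin e, ∑ i : Fin (m + 1), algebraMap M L (x i : M) * w ^ (i : ℕ) := by
        simp
      rw [h2, Finset.prod_univ_sum, Fintype.piFinset_univ]
      refine Finset.sum_congr rfl fun f _ => ?_
      rw [Finset.prod_mul_distrib, Finset.prod_pow_eq_pow_sum, Algebra.smul_def, map_prod]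
    rw [h1, map_sum]
    have h3 : ∀ f : Fin e → Fin (m + 1),
        Algebra.trace M L ((∏ j, ((x (f j) : F) : M)) •
          w ^ (∑ j, ((f j : Fin (m + 1)) : ℕ))) =
        ∑ d ∈ Finset.range e, (((Q (∑ j, ((f j : Fin (m + 1)) : ℕ))).coeff d : F) : M) *
          (∏ j, ((x (f j) : F) : M)) * t ^ d := by
      intro f
      rw [map_smul, smul_eq_mul, hQ2, aeval_eq_sum_range' (hle f), Finset.mul_sum]
      refine Finset.sum_congr rfl fun d _ => ?_
      rw [Algebra.smul_def]
      change _ * ((((Q (∑ j, ((f j : Fin (m + 1)) : ℕ))).coeff d : F) : M) * t ^ d) = _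
      ring
    simp only [h3]
    rw [Finset.sum_comm]
    refine Finset.sum_congr rfl fun d _ => ?_
    rw [← Finset.sum_mul]
    congr 1
    simp only [map_sum, map_mul, MvPolynomial.eval_C, map_prod, MvPolynomial.eval_X]
    push_cast
    rfl

end Pool.Agent.RD
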