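import Pool.Agent.Lib.RD.AStep
import Pool.Agent.Lib.RD.Newton

/-!
MP_0db6a9_al, module AMain (paper: team-store MP_0db6a9_al_paper.md).
Induction on `j` with astep gives `u` outside `M` with `trace (u^e) = 0` for `1 ≤ e ≤ c`; newton_relation and
isIn_of_relation (`S = range (N - c)`, at most `r + 1` elements) show that `u` lies in `M`. (If `N - c = 0` the relation says
`u = 0`.)
-/

namespace Pool.Agent.RD

open Polynomial

/-- AMAIN: Theorem A for fields with `AlgSub`. -/
theorem amain {M L : Type*} [Field M] [Field L] [Algebra M L] [FiniteDimensional M L]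
    [CharZero M] {r : ℕ} (h : AlgSub M r) (hr : 1 ≤ r) (c : ℕ) (hc : c * (c - 1) ≤ r)
    (hN : Module.finrank M L ≤ r + 1 + c) (v : L) : IsIn M v := by
  by_contra hv
  have key : ∀ j, j ≤ c →
      ∃ u : L, ¬ IsIn M u ∧ ∀ e, 1 ≤ e → e ≤ j → Algebra.trace M L (u ^ e) = 0 := by
    intro j
    induction j with
    | zero => exact fun _ => ⟨v, hv, fun e h1 h2 => by omega⟩
    | succ j ih =>
      intro hj
      obtain ⟨u, hu, hp⟩ := ih (by omega)
      exact astep h hr hc (by omega) u hu hp
  obtain ⟨u, hu, hp⟩ := key c le_rfl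
  obtain ⟨a, ha⟩ := newton_relation c u hp
  refine hu (isIn_of_relation h hr _ (Finset.range (Module.finrank M L - c)) ?_ ?_ a u ha)
  · intro i hi
    have := Finset.mem_range.mp hi
    omega
  · rw [Finset.card_range]
    omega

end Pool.Agent.RD
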