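import Pool.Agent.Lib.RD.ALast

/-!
MP_0db6a9_al, module AMain2. The last step `c - 1 → c` of Theorem A with `r + 1` parameters (alast), and the theorem:
`(c-1)(c-2) ≤ r`, `c(c-1) ≤ 2 r`, `[L : M] ≤ r + 1 + c` imply `L = M`.
-/

namespace Pool.Agent.RD

open Polynomial

/-- ALAST1: from an element `w` with all `trace (w^e)`, `e < N`, in an algebraically closed subfield. -/
theorem alast_one {M L : Type*} [Field M] [Field L] [Algebra M L] [FiniteDimensional M L]
    [CharZero M] (c : ℕ) (hc0 : 1 ≤ c) (hc : c * (c + 1) ≤ 2 * (Module.finrank M L - 1))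
    (F : Subfield M) [IsAlgClosed F] (w : L)
    (hdeg : (minpoly M w).natDegree = Module.finrank M L)
    (hp : ∀ e < Module.finrank M L, Algebra.trace M L (w ^ e) ∈ F) :
    ∃ u : L, ¬ IsIn M u ∧ ∀ e, 1 ≤ e → e ≤ c → Algebra.trace M L (u ^ e) = 0 := by
  classical
  set N := Module.finrank M L with hN
  have hN0 : 0 < N := Module.finrank_pos
  obtain ⟨a, ha, hw⟩ := newton_mem F w hp
  have hpoly := trace_poly F w N hN0 a ha hw hp
  -- the index set of the forms
  let ι := Σ k : Fin c, Fin ((k : ℕ) + 1)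
  have hcard : Fintype.card ι * 2 = c * (c + 1) := by
    have h1 : Fintype.card ι = ∑ k : Fin c, ((k : ℕ) + 1) := by
      rw [Fintype.card_sigma]
      simp
    have h2 : ∑ k : Fin c, ((k : ℕ) + 1) = ∑ k ∈ Finset.range (c + 1), k := by
      rw [Fin.sum_univ_eq_sum_range (fun k => k + 1) c, Finset.sum_range_succ' (fun k => k) c]
      simp
    rw [h1, h2, Finset.sum_range_id_mul_two, Nat.add_sub_cancel, mul_comm]
  set s := Fintype.card ι with hs
  have hsN : s < N := by omega
  let eι : Fin s ≃ ι := (Fintype.equivFin ι).symm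
  have hform : ∀ k : Fin c, ∃ g : ℕ → MvPolynomial (Fin (s + 1)) F,
      (∀ d, (g d).IsHomogeneous ((k : ℕ) + 1)) ∧
      ∀ x : Fin (s + 1) → F,
        Algebra.trace M L ((∑ i, algebraMap M L (x i : M) * w ^ (i : ℕ)) ^ ((k : ℕ) + 1)) =
          ∑ d ∈ Finset.range ((k : ℕ) + 1), ((MvPolynomial.eval x (g d) : F) : M) * (a 0) ^ d :=
    fun k => alast_form F s ((k : ℕ) + 1) N hsN (Nat.succ_pos _) w (a 0) hpoly
  choose g hg hgx using hform
  obtain ⟨x, hx0, hx⟩ := exists_common_zero (F := F)
    (fun i : Fin s => g (eι i).1 ((eι i).2 : ℕ)) (fun i => (((eι i).1 : Fin c) : ℕ) + 1)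
    (fun i => Nat.succ_pos _) (fun i => hg _ _)
  have hx1 : ∀ p : ι, MvPolynomial.eval x (g p.1 (p.2 : ℕ)) = 0 := by
    intro p
    have h1 := hx (eι.symm p)
    rw [Equiv.apply_symm_apply] at h1
    exact h1
  have hx' : ∀ (k : Fin c) (d : ℕ), d < (k : ℕ) + 1 → MvPolynomial.eval x (g k d) = 0 :=
    fun k d hd => hx1 ⟨k, ⟨d, hd⟩⟩
  have htr : ∀ e, 1 ≤ e → e ≤ c → Algebra.trace M L
      ((∑ i, algebraMap M L (x i : M) * w ^ (i : ℕ)) ^ e) = 0 := by
    intro e h1 h2
    have h3 := hgx ⟨e - 1, by omega⟩ x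
    have h4 : e - 1 + 1 = e := by omega
    simp only [h4] at h3
    rw [h3]
    refine Finset.sum_eq_zero fun d hd => ?_
    rw [hx' ⟨e - 1, by omega⟩ d (by
      have := Finset.mem_range.1 hd
      change d < e - 1 + 1
      omega)]
    have : ((0 : F) : M) = 0 := rfl
    rw [this, zero_mul]
  refine ⟨∑ i, algebraMap M L (x i : M) * w ^ (i : ℕ), ?_, htr⟩
  have ht1 := htr 1 le_rfl hc0
  rw [pow_one] at ht1
  rintro ⟨b, hb⟩
  rw [← hb, Algebra.trace_algebraMap, nsmul_eq_mul] at ht1
  have hb0 : b = 0 := by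
    rcases mul_eq_zero.1 ht1 with h1 | h1
    · exfalso
      have h2 : Module.finrank M L = 0 := by exact_mod_cast h1
      omega
    · exact h1
  rw [hb0, map_zero] at hb
  let Q : M[X] := ∑ i : Fin (s + 1), Polynomial.monomial (i : ℕ) (x i : M)
  have hQw : aeval w Q = 0 := by
    simp only [Q, map_sum, aeval_monomial]
    exact hb.symm
  have hQc : ∀ i : Fin (s + 1), Q.coeff (i : ℕ) = (x i : M) := by
    intro i
    simp only [Q, finsetSum_coeff, coeff_monomial]
    rw [Finset.sum_eq_single i]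
    · simp
    · intro b _ hb
      rw [if_neg]
      intro h1
      exact hb (Fin.ext h1)
    · intro h1
      exact absurd (Finset.mem_univ i) h1
  have hQ0 : Q ≠ 0 := by
    intro h0
    apply hx0
    funext i
    have h1 := hQc i
    rw [h0, coeff_zero] at h1
    apply Subtype.ext
    rw [← h1]
    rfl
  have hQd : Q.natDegree ≤ s := by
    apply natDegree_sum_le_of_forall_le
    intro i _
    exact (natDegree_monomial_le _).trans (by omega)
  have hle : (minpoly M w).natDegree ≤ s :=
    (natDegree_le_of_dvd (minpoly.dvd M w hQw) hQ0).trans hQd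
  omega

/-- ALAST: the step `c - 1 → c` for `[L : M] = r + 1 + c`. -/
theorem alast {M L : Type*} [Field M] [Field L] [Algebra M L] [FiniteDimensional M L]
    [CharZero M] {r : ℕ} (h : AlgSub M r) (hr : 1 ≤ r) (c : ℕ) (hc0 : 1 ≤ c)
    (hcr : c ≤ r + 1) (hc : c * (c - 1) ≤ 2 * r) (hN : Module.finrank M L = r + 1 + c) (v : L)
    (hv : ¬ IsIn M v) (hp : ∀ e, 1 ≤ e → e ≤ c - 1 → Algebra.trace M L (v ^ e) = 0) :
    ∃ u : L, ¬ IsIn M u ∧ ∀ e, 1 ≤ e → e ≤ c → Algebra.trace M L (u ^ e) = 0 := by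
  classical
  -- some `trace (v^m)`, `c ≤ m < N`, is not 0
  obtain ⟨m, hm1, hm2, hm0⟩ : ∃ m, c ≤ m ∧ m < Module.finrank M L ∧
      Algebra.trace M L (v ^ m) ≠ 0 := by
    by_contra hcon
    push Not at hcon
    have h1 : ∀ e, 1 ≤ e → e ≤ Module.finrank M L - 1 → Algebra.trace M L (v ^ e) = 0 := by
      intro e he1 he2
      rcases Nat.lt_or_ge e c with h2 | h2
      · exact hp e he1 (by omega)
      · exact hcon e h2 (by omega)
    obtain ⟨a, ha⟩ := newton_relation _ v h1
    have h3 : Module.finrank M L - (Module.finrank M L - 1) = 1 := by omega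
    rw [h3] at ha
    refine hv (isIn_of_relation h hr _ (Finset.range 1) (fun i hi => ?_) ?_ a v ha)
    · have := Finset.mem_range.1 hi
      omega
    · rw [Finset.card_range]
      omega
  obtain ⟨l, hl⟩ := exists_root_pow h hr m (by omega) (Algebra.trace M L (v ^ m))⁻¹
  have hl0 : l ≠ 0 := by
    rintro rfl
    rw [zero_pow (by omega)] at hl
    exact hm0 (inv_eq_zero.1 hl.symm)
  set w : L := algebraMap M L l * v with hw
  have hwM : ¬ IsIn M w := fun hin => hv (isIn_of_smul l hl0 v hin)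
  have hwt : ∀ e, Algebra.trace M L (w ^ e) = l ^ e * Algebra.trace M L (v ^ e) := by
    intro e
    rw [hw, mul_pow, ← map_pow, ← Algebra.smul_def, map_smul, smul_eq_mul]
  obtain ⟨F, hF, hFt⟩ := exists_sub_finset h ((Finset.Ico c (Module.finrank M L)).erase m)
    (by
      rw [Finset.card_erase_of_mem (Finset.mem_Ico.2 ⟨hm1, hm2⟩), Nat.card_Ico]
      omega) (fun i => Algebra.trace M L (w ^ i))
  have hFall : ∀ e < Module.finrank M L, Algebra.trace M L (w ^ e) ∈ F := by
    intro e he
    rcases Nat.eq_zero_or_pos e with h3 | h3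
    · rw [h3, pow_zero]
      have h4 : Algebra.trace M L (1 : L) = (Module.finrank M L : M) := by
        have := Algebra.trace_algebraMap (S := L) (1 : M)
        rw [map_one] at this
        rw [this, nsmul_eq_mul, mul_one]
      rw [h4]
      exact natCast_mem F _
    rcases Nat.lt_or_ge e c with h1 | h1
    · rw [hwt, hp e h3 (by omega), mul_zero]
      exact F.zero_mem
    · by_cases h2 : e = m
      · rw [h2, hwt, hl, inv_mul_cancel₀ hm0]
        exact F.one_mem
      · exact hFt e (Finset.mem_erase.2 ⟨h2, Finset.mem_Ico.2 ⟨h1, he⟩⟩)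
  -- the degree of `w`
  have hint : IsIntegral M w := IsIntegral.of_finite M w
  have hdvd : (minpoly M w).natDegree ∣ Module.finrank M L := by
    rw [← IntermediateField.adjoin.finrank hint]
    exact ⟨_, (Module.finrank_mul_finrank M (IntermediateField.adjoin M {w}) L).symm⟩
  have hbig : ¬ (minpoly M w).natDegree ≤ r + 1 := fun hle =>
    hwM (isIn_of_natDegree_le h hr w hle)
  have hdeg : (minpoly M w).natDegree = Module.finrank M L := by
    obtain ⟨q, hq⟩ := hdvd
    have hq1 : q = 1 := by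
      by_contra hne
      have hq0 : q ≠ 0 := by
        rintro rfl
        rw [mul_zero] at hq
        omega
      have h2 : (minpoly M w).natDegree * 2 ≤ (minpoly M w).natDegree * q :=
        Nat.mul_le_mul_left _ (by omega)
      omega
    rw [hq, hq1, mul_one]
  refine alast_one c hc0 ?_ F w hdeg hFall
  have h1 : c * (c + 1) = c * (c - 1) + 2 * c := by
    obtain ⟨b, rfl⟩ : ∃ b, c = b + 1 := ⟨c - 1, by omega⟩
    rw [Nat.add_sub_cancel]
    ring
  omega

/-- AMAIN2: Theorem A with the better last step for fields with `AlgSub`. -/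
theorem amain2 {M L : Type*} [Field M] [Field L] [Algebra M L] [FiniteDimensional M L]
    [CharZero M] {r : ℕ} (h : AlgSub M r) (hr : 1 ≤ r) (c : ℕ) (hc1 : (c - 1) * (c - 2) ≤ r)
    (hc2 : c * (c - 1) ≤ 2 * r) (hN : Module.finrank M L ≤ r + 1 + c) (v : L) : IsIn M v := by
  by_contra hv
  rcases Nat.lt_or_ge (r + 1) (Module.finrank M L) with hbig | hsmall
  · obtain ⟨b, hb⟩ : ∃ b, Module.finrank M L = r + 1 + b := ⟨Module.finrank M L - (r + 1), by omega⟩
    have hb0 : 1 ≤ b := by omega
    have hbc : b ≤ c := by omega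
    have hb1 : (b - 1) * (b - 1 - 1) ≤ r :=
      (Nat.mul_le_mul (by omega) (by omega)).trans hc1
    have hb2 : b * (b - 1) ≤ 2 * r := (Nat.mul_le_mul hbc (by omega)).trans hc2
    have hbr : b ≤ r + 1 := by
      rcases Nat.lt_or_ge b 3 with h1 | h1
      · omega
      · have h2 : (b - 1) * 1 ≤ (b - 1) * (b - 1 - 1) := Nat.mul_le_mul_left _ (by omega)
        omega
    have key : ∀ j, j ≤ b - 1 →
        ∃ u : L, ¬ IsIn M u ∧ ∀ e, 1 ≤ e → e ≤ j → Algebra.trace M L (u ^ e) = 0 := by
      intro j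
      induction j with
      | zero => exact fun _ => ⟨v, hv, fun e h1 h2 => by omega⟩
      | succ j ih =>
        intro hj
        obtain ⟨u, hu, hp⟩ := ih (by omega)
        exact astep h hr hb1 (by omega) u hu hp
    obtain ⟨u, hu, hp⟩ := key (b - 1) le_rfl
    obtain ⟨w, hw, hwp⟩ := alast h hr b hb0 hbr hb2 hb u hu hp
    obtain ⟨a, ha⟩ := newton_relation b w hwp
    refine hw (isIn_of_relation h hr _ (Finset.range (Module.finrank M L - b)) ?_ ?_ a w ha)
    · intro i hi
      have := Finset.mem_range.mp hi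
      omega
    · rw [Finset.card_range]
      omega
  · exact hv (isIn_of_natDegree_le h hr v ((minpoly.natDegree_le v).trans hsmall))

end Pool.Agent.RD
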