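import Pool.Agent.Lib.RD.Defs

/-!
MP_0db6a9_al, module Krull (paper: team-store MP_0db6a9_al_paper.md).
Let `I` be the ideal generated by the `g i`. If the only common zero is 0 then by the Nullstellensatz
(`MvPolynomial.vanishingIdeal_zeroLocus_eq_radical`) the radical of `I` is the ideal `m` of polynomials vanishing at 0, i.e.
`m = span of the variables`, so `m` is the only prime over `I`, a minimal prime of `I`, and Krull's height theorem
(`Ideal.height_le_spanFinrank` or `Ideal.height_le_spanRank_toENat_of_mem_minimalPrimes`,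
Mathlib/RingTheory/Ideal/KrullsHeightTheorem.lean) gives `height m ≤ s`. But the chain of primes
`0 < (X_0) < (X_0, X_1) < ... < (X_0, ..., X_s)` shows `height m ≥ s + 1`. (The zero set contains 0 because the `g i` are
homogeneous of positive degree.)
-/

namespace Pool.Agent.RD

open Polynomial

/-- the algebra map killing the variables of index below `j` -/
private noncomputable def kill (F : Type*) [Field F] (n j : ℕ) :
    MvPolynomial (Fin n) F →ₐ[F] MvPolynomial (Fin n) F :=
  MvPolynomial.aeval (fun i : Fin n => if i.val < j then 0 else MvPolynomial.X i)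

private lemma kill_X {F : Type*} [Field F] (n j : ℕ) (i : Fin n) :
    kill F n j (MvPolynomial.X i) = if i.val < j then 0 else MvPolynomial.X i := by
  simp [kill]

private lemma kill_comp {F : Type*} [Field F] (n j : ℕ) :
    (kill F n (j + 1)).comp (kill F n j) = kill F n (j + 1) := by
  apply MvPolynomial.algHom_ext
  intro i
  rw [AlgHom.comp_apply, kill_X, kill_X]
  by_cases h : i.val < j
  · rw [if_pos h, if_pos (by omega), map_zero]
  · rw [if_neg h, kill_X]

private lemma kill_height {F : Type*} [Field F] (n j : ℕ) (hj : j ≤ n) :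
    (j : ℕ∞) ≤ (RingHom.ker (kill F n j)).height := by
  induction j with
  | zero => simp
  | succ j ih =>
    have h1 := ih (by omega)
    have : (RingHom.ker (kill F n j)).IsPrime := RingHom.ker_isPrime _
    have : (RingHom.ker (kill F n (j + 1))).IsPrime := RingHom.ker_isPrime _
    have hlt : RingHom.ker (kill F n j) < RingHom.ker (kill F n (j + 1)) := by
      rw [SetLike.lt_iff_le_and_exists]
      refine ⟨?_, MvPolynomial.X ⟨j, hj⟩, ?_, ?_⟩
      · intro p hp
        rw [RingHom.mem_ker] at hp ⊢
        rw [← kill_comp, AlgHom.comp_apply, hp, map_zero]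
      · rw [RingHom.mem_ker, kill_X, if_pos (Nat.lt_succ_self j)]
      · rw [RingHom.mem_ker, kill_X, if_neg (lt_irrefl j)]
        exact MvPolynomial.X_ne_zero _
    calc ((j + 1 : ℕ) : ℕ∞) = (j : ℕ∞) + 1 := by push_cast; rfl
      _ ≤ (RingHom.ker (kill F n j)).height + 1 := by gcongr
      _ ≤ _ := Ideal.height_add_one_le_of_lt_of_isPrime hlt

/-- KRULL: `s` homogeneous polynomials of positive degree in `s + 1` variables over an
algebraically closed field have a nontrivial common zero. -/
theorem exists_common_zero {F : Type*} [Field F] [IsAlgClosed F] {s : ℕ}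
    (g : Fin s → MvPolynomial (Fin (s + 1)) F) (d : Fin s → ℕ) (hd : ∀ i, 0 < d i)
    (hg : ∀ i, (g i).IsHomogeneous (d i)) :
    ∃ x : Fin (s + 1) → F, x ≠ 0 ∧ ∀ i, MvPolynomial.eval x (g i) = 0 := by
  classical
  by_contra hcon
  push Not at hcon
  set S : Set (MvPolynomial (Fin (s + 1)) F) := Set.range g with hS
  set I : Ideal (MvPolynomial (Fin (s + 1)) F) := Ideal.span S with hI
  set m : Ideal (MvPolynomial (Fin (s + 1)) F) := RingHom.ker (kill F (s + 1) (s + 1)) with hm
  have hmp : m.IsPrime := RingHom.ker_isPrime _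
  -- the map killing all variables determines the value at zero
  have hkill : ∀ q : MvPolynomial (Fin (s + 1)) F,
      kill F (s + 1) (s + 1) q = MvPolynomial.C (MvPolynomial.eval 0 q) := by
    intro q
    have h : kill F (s + 1) (s + 1) = (Algebra.ofId F (MvPolynomial (Fin (s + 1)) F)).comp
        (MvPolynomial.aeval (0 : Fin (s + 1) → F)) := by
      apply MvPolynomial.algHom_ext
      intro i
      rw [kill_X, if_pos i.isLt, AlgHom.comp_apply]
      simp
    rw [h, AlgHom.comp_apply]
    rfl
  have hmem : ∀ q : MvPolynomial (Fin (s + 1)) F, q ∈ m ↔ MvPolynomial.eval 0 q = 0 := by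
    intro q
    rw [hm, RingHom.mem_ker, hkill]
    simp
  -- the zero set
  have hzero : ∀ x ∈ MvPolynomial.zeroLocus F I, x = 0 := by
    intro x hx
    by_contra hx0
    obtain ⟨i, hi⟩ := hcon x hx0
    apply hi
    have := hx (g i) (Ideal.subset_span ⟨i, rfl⟩)
    simpa [MvPolynomial.aeval_eq_eval] using this
  have hmrad : m ≤ I.radical := by
    rw [← MvPolynomial.vanishingIdeal_zeroLocus_eq_radical (K := F)]
    intro q hq x hx
    rw [hzero x hx]
    rw [hmem] at hq
    simpa [MvPolynomial.aeval_eq_eval] using hq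
  have hIm : I ≤ m := by
    rw [hI, Ideal.span_le]
    rintro _ ⟨i, rfl⟩
    rw [SetLike.mem_coe, hmem]
    rw [MvPolynomial.eval_zero, MvPolynomial.constantCoeff_eq]
    exact (hg i).coeff_eq_zero (by simpa using (hd i).ne)
  have hmin : m ∈ I.minimalPrimes := by
    refine ⟨⟨hmp, hIm⟩, ?_⟩
    rintro p ⟨hp, hIp⟩ _
    exact hmrad.trans (hp.radical_le_iff.2 hIp)
  have h1 : m.height ≤ (S.ncard : ℕ∞) :=
    Ideal.height_le_card_of_mem_minimalPrimes_span (Set.finite_range g) hmin
  have h2 : ((s + 1 : ℕ) : ℕ∞) ≤ m.height := kill_height (s + 1) (s + 1) le_rfl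
  have h3 : S.ncard ≤ s := by
    rw [hS, ← Set.image_univ]
    calc (g '' Set.univ).ncard ≤ (Set.univ : Set (Fin s)).ncard := Set.ncard_image_le Set.finite_univ
      _ = s := by simp [Set.ncard_univ]
  have h4 : ((s + 1 : ℕ) : ℕ∞) ≤ (S.ncard : ℕ∞) := h2.trans h1
  have h5 : s + 1 ≤ S.ncard := by exact_mod_cast h4
  omega

end Pool.Agent.RD
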