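import Pool.Agent.Lib.RD.Scale
import Pool.Agent.Lib.RD.Krull
import Pool.Agent.Lib.RD.AForm

/-!
MP_0db6a9_al, module AStep (paper: team-store MP_0db6a9_al_paper.md).
Step (2) of Theorem A. `v` has degree at least `r + 2 ≥ c + 1 ≥ j + 2` over `M` (isIn_of_natDegree_le), so
`1, v, ..., v^(j+1)` are independent. If `trace (v^(j+1)) = 0` take `u = v`. Otherwise scale `v` by a `(j+1)`-th root
(exists_root_pow) so that it is 1. The traces of `v^i`, `j+2 ≤ i ≤ (j+1)^2`, are `j (j+1) ≤ c (c-1) ≤ r` elements: they lie in an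
algebraically closed subfield `F` (exists_sub_finset with `Finset.Icc`), so do all `trace (v^i)`, `i ≤ (j+1)^2` (0 for
`1 ≤ i ≤ j`, 1 for `i = j+1`, `trace 1` = a natural number). astep_form with `m = j+1`, `e = 1, ..., j+1` and
exists_common_zero with `s = j+1` give `x ≠ 0`; `u = ∑ x_i v^i ≠ 0` and `trace u = 0`, so `u` is not in `M` (characteristic 0).
-/

namespace Pool.Agent.RD

open Polynomial

/-- ASTEP: step (2) of the proof of Theorem A. -/
theorem astep {M L : Type*} [Field M] [Field L] [Algebra M L] [FiniteDimensional M L]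
    [CharZero M] {r : ℕ} (h : AlgSub M r) (hr : 1 ≤ r) {c j : ℕ} (hc : c * (c - 1) ≤ r)
    (hj : j < c) (v : L) (hv : ¬ IsIn M v)
    (hp : ∀ e, 1 ≤ e → e ≤ j → Algebra.trace M L (v ^ e) = 0) :
    ∃ u : L, ¬ IsIn M u ∧ ∀ e, 1 ≤ e → e ≤ j + 1 → Algebra.trace M L (u ^ e) = 0 := by
  classical
  by_cases hτ : Algebra.trace M L (v ^ (j + 1)) = 0
  · refine ⟨v, hv, fun e h1 h2 => ?_⟩
    rcases Nat.lt_or_ge e (j + 1) with h3 | h3
    · exact hp e h1 (by omega)
    · have : e = j + 1 := by omega
      rw [this]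
      exact hτ
  set τ := Algebra.trace M L (v ^ (j + 1)) with hτdef
  obtain ⟨l, hl⟩ := exists_root_pow h hr (j + 1) (Nat.succ_pos j) τ⁻¹
  have hl0 : l ≠ 0 := by
    rintro rfl
    rw [zero_pow (Nat.succ_ne_zero j)] at hl
    exact hτ (inv_eq_zero.1 hl.symm)
  set w : L := algebraMap M L l * v with hw
  have hwM : ¬ IsIn M w := fun hin => hv (isIn_of_smul l hl0 v hin)
  have hwt : ∀ e, Algebra.trace M L (w ^ e) = l ^ e * Algebra.trace M L (v ^ e) := by
    intro e
    rw [hw, mul_pow, ← map_pow, ← Algebra.smul_def, map_smul, smul_eq_mul]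
  have hw1 : Algebra.trace M L (w ^ (j + 1)) = 1 := by
    rw [hwt, hl, inv_mul_cancel₀ hτ]
  have hw0 : ∀ e, 1 ≤ e → e ≤ j → Algebra.trace M L (w ^ e) = 0 := by
    intro e h1 h2
    rw [hwt, hp e h1 h2, mul_zero]
  -- the algebraically closed field
  have hcj : (j + 1) * j ≤ c * (c - 1) := Nat.mul_le_mul (by omega) (by omega)
  have hcard : (Finset.Icc (j + 2) ((j + 1) * (j + 1))).card ≤ r := by
    rw [Nat.card_Icc]
    have h1 : (j + 1) * (j + 1) = (j + 1) * j + (j + 1) := by ring
    omega
  obtain ⟨F, hF, hFt⟩ := exists_sub_finset h (Finset.Icc (j + 2) ((j + 1) * (j + 1))) hcard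
    (fun i => Algebra.trace M L (w ^ i))
  have hFall : ∀ i ≤ (j + 1) * (j + 1), Algebra.trace M L (w ^ i) ∈ F := by
    intro i hi
    rcases Nat.lt_or_ge i (j + 2) with h1 | h1
    · rcases Nat.lt_or_ge i (j + 1) with h2 | h2
      · rcases Nat.eq_zero_or_pos i with h3 | h3
        · rw [h3, pow_zero]
          have h4 : Algebra.trace M L (1 : L) = (Module.finrank M L : M) := by
            have := Algebra.trace_algebraMap (S := L) (1 : M)
            rw [map_one] at this
            rw [this, nsmul_eq_mul, mul_one]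
          rw [h4]
          exact natCast_mem F _
        · rw [hw0 i h3 (by omega)]
          exact F.zero_mem
      · have : i = j + 1 := by omega
        rw [this, hw1]
        exact F.one_mem
    · exact hFt i (Finset.mem_Icc.2 ⟨h1, hi⟩)
  have hform : ∀ k : Fin (j + 1), ∃ g : MvPolynomial (Fin (j + 1 + 1)) F,
      g.IsHomogeneous ((k : ℕ) + 1) ∧ ∀ x : Fin (j + 1 + 1) → F,
        ((MvPolynomial.eval x g : F) : M) =
          Algebra.trace M L ((∑ i, algebraMap M L (x i : M) * w ^ (i : ℕ)) ^ ((k : ℕ) + 1)) := by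
    intro k
    refine astep_form F (j + 1) ((k : ℕ) + 1) w fun i hi => hFall i (hi.trans ?_)
    exact Nat.mul_le_mul_right _ (by omega)
  choose g hg hgx using hform
  obtain ⟨x, hx0, hx⟩ := exists_common_zero (F := F) g (fun k => (k : ℕ) + 1)
    (fun k => Nat.succ_pos _) hg
  refine ⟨∑ i, algebraMap M L (x i : M) * w ^ (i : ℕ), ?_, ?_⟩
  · have htr : Algebra.trace M L (∑ i, algebraMap M L (x i : M) * w ^ (i : ℕ)) = 0 := by
      have h1 := hgx ⟨0, Nat.succ_pos j⟩ x
      rw [hx] at h1
      simp only [zero_add, pow_one] at h1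
      rw [← h1]
      rfl
    rintro ⟨a, ha⟩
    rw [← ha, Algebra.trace_algebraMap, nsmul_eq_mul] at htr
    have ha0 : a = 0 := by
      rcases mul_eq_zero.1 htr with h1 | h1
      · exfalso
        have h2 : Module.finrank M L = 0 := by exact_mod_cast h1
        exact (Module.finrank_pos (R := M) (M := L)).ne' h2
      · exact h1
    rw [ha0, map_zero] at ha
    -- a polynomial relation of degree at most `j + 1`
    let Q : M[X] := ∑ i : Fin (j + 1 + 1), Polynomial.monomial (i : ℕ) (x i : M)
    have hQw : aeval w Q = 0 := by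
      simp only [Q, map_sum, aeval_monomial]
      exact ha.symm
    have hQc : ∀ i : Fin (j + 1 + 1), Q.coeff (i : ℕ) = (x i : M) := by
      intro i
      simp only [Q, finsetSum_coeff, coeff_monomial]
      rw [Finset.sum_eq_single i]
      · simp
      · intro b _ hb
        rw [if_neg]
        intro h1
        exact hb (Fin.ext h1)
      · intro h1
        exact absurd (Finset.mem_univ i) h1
    have hQ0 : Q ≠ 0 := by
      intro h0
      apply hx0
      funext i
      have h1 := hQc i
      rw [h0, coeff_zero] at h1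
      apply Subtype.ext
      rw [← h1]
      rfl
    have hQd : Q.natDegree ≤ j + 1 := by
      apply natDegree_sum_le_of_forall_le
      intro i _
      exact (natDegree_monomial_le _).trans (by omega)
    have hdeg : ¬ (minpoly M w).natDegree ≤ r + 1 := fun hle =>
      hwM (isIn_of_natDegree_le h hr w hle)
    have hle : (minpoly M w).natDegree ≤ j + 1 :=
      (natDegree_le_of_dvd (minpoly.dvd M w hQw) hQ0).trans hQd
    have hcr : j + 1 ≤ r + 1 := by
      rcases Nat.lt_or_ge 1 c with h1 | h1
      · have : c ≤ c * (c - 1) := by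
          calc c = c * 1 := (mul_one c).symm
            _ ≤ c * (c - 1) := Nat.mul_le_mul_left c (by omega)
        omega
      · omega
    omega
  · intro e h1 h2
    have h3 := hgx ⟨e - 1, by omega⟩ x
    rw [hx] at h3
    have h4 : e - 1 + 1 = e := by omega
    simp only [h4] at h3
    rw [← h3]
    rfl

end Pool.Agent.RD
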