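import Pool.Agent.Lib.RD.Scale

/-!
MP_0db6a9_al, module AddP (paper: team-store MP_0db6a9_al_paper.md).
Lemma C. Show by induction on `w`: if `∑_(i ≤ w) γ_i v^(p^i) = e` with `γ_i ∈ F`, `γ_w ≠ 0`, `e ∈ M`, then
`v ∈ M`. `w = 0`: clear. `w ≥ 1`, `γ_0 = 0`: apply the induction hypothesis to `v^p`, then exists_root_pow (or
isIn_of_relation with `N = p`, `S = {0}`). `w ≥ 1`, `γ_0 ≠ 0`: `∑ γ_i X^(p^i - 1)` has degree `p^w - 1 ≥ 1`, so it has a root
`a ∈ F`, `a ≠ 0`. With `D y = y^p - a^(p-1) y` one has `∑_(i ≤ w) γ_i y^(p^i) = ∑_(i < w) δ_i (D y)^(p^i) + δ y` for all `y`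
(`y^(p^w) = (D y)^(p^(w-1)) + a^((p-1) p^(w-1)) y^(p^(w-1))`, induction), `δ_(w-1) = γ_w`, all `δ_i ∈ F`; `y = a` gives `δ = 0`. So
`D v ∈ M` by the induction hypothesis, and `z = v / a` satisfies `z^p = z + m`, `m ∈ M`: isIn_of_relation with `N = p`,
`S = {0, 1}`.
-/

namespace Pool.Agent.RD

open Polynomial

/-- division of an additive polynomial by `X ^ p - a X` -/
private theorem addp_div {M L : Type*} [Field M] [Field L] [Algebra M L] (p : ℕ)
    [Fact p.Prime] [CharP L p] (F : Subfield M) (a : M) (ha : a ∈ F) (w : ℕ) :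
    ∀ γ : ℕ → M, (∀ i ≤ w + 1, γ i ∈ F) → ∃ (δ : ℕ → M) (δ₀ : M),
      (∀ i ≤ w, δ i ∈ F) ∧ δ w = γ (w + 1) ∧ (a = 0 → δ₀ = γ 0) ∧
      ∀ y : L, ∑ i ∈ Finset.range (w + 2), algebraMap M L (γ i) * y ^ p ^ i =
        ∑ i ∈ Finset.range (w + 1), algebraMap M L (δ i) * (y ^ p - algebraMap M L a * y) ^ p ^ i +
          algebraMap M L δ₀ * y := by
  induction w with
  | zero =>
    intro γ hγ
    refine ⟨fun _ => γ 1, γ 0 + γ 1 * a, fun i _ => hγ 1 le_rfl, rfl, ?_, ?_⟩
    · rintro rfl
      rw [mul_zero, add_zero]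
    · intro y
      simp only [Finset.sum_range_succ, Finset.sum_range_zero, pow_zero, pow_one, map_add,
        map_mul]
      ring
  | succ w ih =>
    intro γ hγ
    set γ' : ℕ → M := Function.update γ (w + 1) (γ (w + 1) + γ (w + 2) * a ^ p ^ (w + 1)) with hγ'
    have hne : ∀ i, i ≠ w + 1 → γ' i = γ i := fun i hi => by rw [hγ', Function.update_of_ne hi]
    have heq : γ' (w + 1) = γ (w + 1) + γ (w + 2) * a ^ p ^ (w + 1) := by
      rw [hγ', Function.update_self]
    obtain ⟨δ', δ₀, h1, h2, h3, h4⟩ := ih γ' (by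
      intro i hi
      by_cases hiw : i = w + 1
      · rw [hiw, heq]
        exact F.add_mem (hγ _ (by omega)) (F.mul_mem (hγ _ (by omega)) (F.pow_mem ha _))
      · rw [hne i hiw]
        exact hγ i (by omega))
    refine ⟨Function.update δ' (w + 1) (γ (w + 2)), δ₀, ?_, ?_, ?_, ?_⟩
    · intro i hi
      by_cases hiw : i = w + 1
      · rw [hiw, Function.update_self]
        exact hγ _ (by omega)
      · rw [Function.update_of_ne hiw]
        exact h1 i (by omega)
    · rw [Function.update_self]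
    · intro ha0
      rw [h3 ha0, hne 0 (by omega)]
    · intro y
      have h5 := h4 y
      rw [Finset.sum_range_succ] at h5
      rw [Finset.sum_range_succ, Finset.sum_range_succ, Finset.sum_range_succ (n := w + 1)]
      have e1 : ∑ i ∈ Finset.range (w + 1), algebraMap M L (γ i) * y ^ p ^ i =
          ∑ i ∈ Finset.range (w + 1), algebraMap M L (γ' i) * y ^ p ^ i := by
        refine Finset.sum_congr rfl fun i hi => ?_
        rw [hne i (by have := Finset.mem_range.1 hi; omega)]
      have e2 : ∑ i ∈ Finset.range (w + 1), algebraMap M L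
          (Function.update δ' (w + 1) (γ (w + 2)) i) * (y ^ p - algebraMap M L a * y) ^ p ^ i =
          ∑ i ∈ Finset.range (w + 1), algebraMap M L (δ' i) *
            (y ^ p - algebraMap M L a * y) ^ p ^ i := by
        refine Finset.sum_congr rfl fun i hi => ?_
        rw [Function.update_of_ne (by have := Finset.mem_range.1 hi; omega)]
      have e3 : (y ^ p - algebraMap M L a * y) ^ p ^ (w + 1) =
          y ^ p ^ (w + 2) - algebraMap M L a ^ p ^ (w + 1) * y ^ p ^ (w + 1) := by
        rw [sub_pow_char_pow, mul_pow, ← pow_mul, ← pow_succ']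
      rw [e1, e2, Function.update_self, e3]
      rw [heq] at h5
      simp only [map_add, map_mul, map_pow] at h5 ⊢
      linear_combination h5

private theorem addp_root {M : Type*} [Field M] (p : ℕ) [Fact p.Prime] (F : Subfield M)
    (hF : IsAlgClosed F) (w : ℕ) (γ : ℕ → M) (hγ : ∀ i ≤ w + 1, γ i ∈ F) (hw : γ (w + 1) ≠ 0)
    (h0 : γ 0 ≠ 0) :
    ∃ α : M, α ∈ F ∧ α ≠ 0 ∧ ∑ i ∈ Finset.range (w + 2), γ i * α ^ p ^ i = 0 := by
  classical
  have hp : 1 < p := (Fact.out : p.Prime).one_lt
  set g : ℕ → F := fun i => if h : γ i ∈ F then ⟨γ i, h⟩ else 0 with hg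
  have hgi : ∀ i ≤ w + 1, (g i : M) = γ i := by
    intro i hi
    rw [hg]
    simp only [dif_pos (hγ i hi)]
  set P : F[X] := ∑ i ∈ Finset.range (w + 2), C (g i) * X ^ (p ^ i - 1) with hP
  have hpos : ∀ i : ℕ, 1 ≤ p ^ i := fun i => Nat.one_le_pow _ _ (by omega)
  have hcoef : P.coeff (p ^ (w + 1) - 1) = g (w + 1) := by
    rw [hP, finset_sum_coeff, Finset.sum_eq_single (w + 1)]
    · rw [coeff_C_mul, coeff_X_pow, if_pos rfl, mul_one]
    · intro i hi hne
      rw [coeff_C_mul, coeff_X_pow, if_neg, mul_zero]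
      intro h
      apply hne
      have h1 := hpos i
      have h2 := hpos (w + 1)
      exact (Nat.pow_right_injective hp (by omega : p ^ i = p ^ (w + 1)))
    · intro h
      exact absurd (Finset.mem_range.2 (by omega)) h
  have hgw : g (w + 1) ≠ 0 := by
    intro h
    apply hw
    rw [← hgi _ le_rfl, h]
    rfl
  have hdeg : P.degree ≠ 0 := by
    intro h
    have h1 : P.natDegree = 0 := natDegree_eq_of_degree_eq_some h
    have h2 : p ^ (w + 1) - 1 ≤ P.natDegree := le_natDegree_of_ne_zero (by rw [hcoef]; exact hgw)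
    have h3 : p ^ 1 ≤ p ^ (w + 1) := Nat.pow_le_pow_right (by omega) (by omega)
    rw [pow_one] at h3
    omega
  obtain ⟨α, hα⟩ := IsAlgClosed.exists_root P hdeg
  have hev : ∑ i ∈ Finset.range (w + 2), g i * α ^ (p ^ i - 1) = 0 := by
    have := hα
    rw [IsRoot.def, hP, eval_finset_sum] at this
    simpa using this
  have hev2 : ∑ i ∈ Finset.range (w + 2), γ i * (α : M) ^ (p ^ i - 1) = 0 := by
    have h1 := congrArg (Subtype.val : F → M) hev
    have h2 : ((∑ i ∈ Finset.range (w + 2), g i * α ^ (p ^ i - 1) : F) : M) =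
        ∑ i ∈ Finset.range (w + 2), (g i : M) * (α : M) ^ (p ^ i - 1) := by
      push_cast
      rfl
    rw [h2] at h1
    rw [← show ((0 : F) : M) = 0 from rfl, ← h1]
    refine Finset.sum_congr rfl fun i hi => ?_
    rw [hgi i (by have := Finset.mem_range.1 hi; omega)]
  have hα0 : (α : M) ≠ 0 := by
    intro h
    rw [h, Finset.sum_eq_single 0] at hev2
    · simp at hev2
      exact h0 hev2
    · intro i hi hne
      rw [zero_pow, mul_zero]
      have : p ^ 1 ≤ p ^ i := Nat.pow_le_pow_right (by omega) (by omega)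
      rw [pow_one] at this
      omega
    · intro h
      exact absurd (Finset.mem_range.2 (by omega)) h
  refine ⟨α, α.2, hα0, ?_⟩
  have h1 := congrArg (fun x => x * (α : M)) hev2
  simp only [zero_mul, Finset.sum_mul] at h1
  rw [← h1]
  refine Finset.sum_congr rfl fun i _ => ?_
  rw [mul_assoc, ← pow_succ, Nat.sub_add_cancel (hpos i)]

private theorem addp_aux {M L : Type*} [Field M] [Field L] [Algebra M L] {r : ℕ}
    (h : AlgSub M r) (hr : 1 ≤ r) (p : ℕ) [Fact p.Prime] [CharP L p]
    (F : Subfield M) (hF : IsAlgClosed F) (w : ℕ) :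
    ∀ γ : ℕ → M, (∀ i ≤ w, γ i ∈ F) → γ w ≠ 0 → ∀ (e : M) (v : L),
      ∑ i ∈ Finset.range (w + 1), algebraMap M L (γ i) * v ^ p ^ i = algebraMap M L e →
      IsIn M v := by
  have hp : 1 < p := (Fact.out : p.Prime).one_lt
  induction w with
  | zero =>
    intro γ _ hw e v hv
    refine isIn_of_smul (γ 0) hw v ⟨e, ?_⟩
    simpa using hv.symm
  | succ w ih =>
    intro γ hγ hw e v hv
    -- the choice of `a`
    obtain ⟨a, ha, δ, h1, h2, h4⟩ : ∃ a ∈ F, ∃ δ : ℕ → M, (∀ i ≤ w, δ i ∈ F) ∧
        δ w = γ (w + 1) ∧ ∀ y : L,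
        ∑ i ∈ Finset.range (w + 2), algebraMap M L (γ i) * y ^ p ^ i =
        ∑ i ∈ Finset.range (w + 1), algebraMap M L (δ i) *
          (y ^ p - algebraMap M L a * y) ^ p ^ i := by
      by_cases h0 : γ 0 = 0
      · obtain ⟨δ, δ₀, h1, h2, h3, h4⟩ := addp_div (L := L) p F 0 F.zero_mem w γ hγ
        refine ⟨0, F.zero_mem, δ, h1, h2, fun y => ?_⟩
        rw [h4 y, h3 rfl, h0, map_zero, zero_mul, add_zero]
      · obtain ⟨α, hα, hα0, hαs⟩ := addp_root p F hF w γ hγ hw h0
        obtain ⟨δ, δ₀, h1, h2, -, h4⟩ := addp_div (L := L) p F (α ^ (p - 1)) (F.pow_mem hα _) w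
          γ hγ
        refine ⟨α ^ (p - 1), F.pow_mem hα _, δ, h1, h2, fun y => ?_⟩
        have h5 := h4 (algebraMap M L α)
        have h6 : (algebraMap M L α) ^ p - algebraMap M L (α ^ (p - 1)) * algebraMap M L α = 0 := by
          rw [← map_pow, ← map_mul, ← pow_succ, Nat.sub_add_cancel (by omega), sub_self]
        have h7 : ∑ i ∈ Finset.range (w + 2), algebraMap M L (γ i) * (algebraMap M L α) ^ p ^ i
            = 0 := by
          have := congrArg (algebraMap M L) hαs
          rw [map_zero, map_sum] at this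
          rw [← this]
          refine Finset.sum_congr rfl fun i _ => ?_
          rw [map_mul, map_pow]
        have h8 : ∑ i ∈ Finset.range (w + 1), algebraMap M L (δ i) *
            ((algebraMap M L α) ^ p - algebraMap M L (α ^ (p - 1)) * algebraMap M L α) ^ p ^ i
            = 0 := by
          refine Finset.sum_eq_zero fun i _ => ?_
          rw [h6, zero_pow (pow_ne_zero _ (by omega)), mul_zero]
        rw [h7, h8, zero_add] at h5
        have h9 : algebraMap M L δ₀ = 0 := by
          have h10 : algebraMap M L α ≠ 0 :=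
            (map_ne_zero_iff _ (algebraMap M L).injective).2 hα0
          exact (mul_eq_zero.1 h5.symm).resolve_right h10
        rw [h4 y, h9, zero_mul, add_zero]
    -- the induction hypothesis for `v ^ p - a v`
    obtain ⟨m, hm⟩ := ih δ h1 (by rw [h2]; exact hw) e (v ^ p - algebraMap M L a * v)
      (by rw [← h4 v]; exact hv)
    refine isIn_of_relation h hr p {0, 1} ?_ ?_ (fun i => if i = 0 then m else a) v ?_
    · intro i hi
      simp only [Finset.mem_insert, Finset.mem_singleton] at hi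
      omega
    · have : ({0, 1} : Finset ℕ).card ≤ 2 := Finset.card_le_two
      omega
    · rw [Finset.sum_pair (by norm_num)]
      simp only [if_true, pow_zero, mul_one, one_ne_zero, if_false, pow_one]
      rw [hm]
      ring

/-- ADDP: additive equations over an algebraically closed subfield of `M` with right hand side
in `M` are solvable in `M`. -/
theorem isIn_of_additive {M L : Type*} [Field M] [Field L] [Algebra M L] {r : ℕ}
    (h : AlgSub M r) (hr : 1 ≤ r) (p : ℕ) [Fact p.Prime] [CharP M p] [CharP L p]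
    (F : Subfield M) (hF : IsAlgClosed F) (w : ℕ) (c : ℕ → M) (hc : ∀ i < w, c i ∈ F)
    (e : M) (v : L)
    (hv : v ^ p ^ w = algebraMap M L e + ∑ i ∈ Finset.range w, algebraMap M L (c i) * v ^ p ^ i) :
    IsIn M v := by
  refine addp_aux h hr p F hF w (fun i => if i = w then 1 else - c i) ?_ ?_ e v ?_
  · intro i hi
    by_cases hiw : i = w
    · simp only [hiw, if_true]
      exact F.one_mem
    · simp only [hiw, if_false]
      exact F.neg_mem (hc i (by omega))
  · simp
  · rw [Finset.sum_range_succ]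
    have h1 : ∑ i ∈ Finset.range w, algebraMap M L (if i = w then 1 else - c i) * v ^ p ^ i =
        - ∑ i ∈ Finset.range w, algebraMap M L (c i) * v ^ p ^ i := by
      rw [← Finset.sum_neg_distrib]
      refine Finset.sum_congr rfl fun i hi => ?_
      have : i ≠ w := by
        have := Finset.mem_range.1 hi
        omega
      rw [if_neg this, map_neg, neg_mul]
    rw [h1, if_pos rfl, map_one, one_mul, hv]
    ring

end Pool.Agent.RD
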