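import Pool.Agent.Lib.RD.Scale

/-!
MP_0db6a9_al, module BDep (paper: team-store MP_0db6a9_al_paper.md).
isIn_of_dep: isIn_of_relation with `N = p^n` and `S = {0} ∪ {p^i : i < n}` (`n + 1` elements).
linearIndependent_frobFam: otherwise take the least `m` for which `1, v, ..., v^(p^(m-1))` are dependent; then
`v^(p^(m-1))` is a combination of the previous ones, `m - 1 ≤ r`, and isIn_of_dep applies (for `m = 0` the family is `1`).
-/

namespace Pool.Agent.RD

open Polynomial

/-- BDEP: item (1) of the proof of Theorem B. -/
theorem isIn_of_dep {M L : Type*} [Field M] [Field L] [Algebra M L] {r : ℕ}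
    (h : AlgSub M r) (hr : 1 ≤ r) (p : ℕ) [Fact p.Prime] (n : ℕ) (hn : n ≤ r) (v : L)
    (e : M) (c : ℕ → M)
    (hv : v ^ p ^ n = algebraMap M L e + ∑ i ∈ Finset.range n, algebraMap M L (c i) * v ^ p ^ i) :
    IsIn M v := by
  have hp : p.Prime := Fact.out
  have hp1 : 1 < p := hp.one_lt
  have hinj : Function.Injective (fun i : ℕ => p ^ i) := Nat.pow_right_injective hp1
  have h0 : (0 : ℕ) ∉ (Finset.range n).image (fun i : ℕ => p ^ i) := by
    intro hmem
    obtain ⟨i, -, hi⟩ := Finset.mem_image.1 hmem
    exact (pow_pos hp.pos i).ne' hi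
  refine isIn_of_relation h hr (p ^ n) (insert 0 ((Finset.range n).image (fun i : ℕ => p ^ i)))
    ?_ ?_ (fun j => if j = 0 then e else c (Nat.log p j)) v ?_
  · intro j hj
    rcases Finset.mem_insert.1 hj with rfl | hj
    · exact pow_pos hp.pos n
    · obtain ⟨i, hi, rfl⟩ := Finset.mem_image.1 hj
      exact Nat.pow_lt_pow_right hp1 (Finset.mem_range.1 hi)
  · rw [Finset.card_insert_of_notMem h0, Finset.card_image_of_injective _ hinj,
      Finset.card_range]
    omega
  · rw [Finset.sum_insert h0, Finset.sum_image (fun a _ b _ hab => hinj hab), hv]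
    congr 1
    · simp
    · refine Finset.sum_congr rfl fun i _ => ?_
      rw [if_neg (pow_pos hp.pos i).ne', Nat.log_pow hp1]

/-- The family `1, v, v^p, ..., v^(p^(m-1))`. -/
noncomputable def frobFam {L : Type*} [Field L] (p m : ℕ) (v : L) : Option (Fin m) → L
  | none => 1
  | some i => v ^ p ^ (i : ℕ)

/-- BDEP: `1, v, v^p, ..., v^(p^r)` are independent over `M` for `v` outside `M`. -/
theorem linearIndependent_frobFam {M L : Type*} [Field M] [Field L] [Algebra M L] {r : ℕ}
    (h : AlgSub M r) (hr : 1 ≤ r) (p : ℕ) [Fact p.Prime] (v : L) (hv : ¬ IsIn M v) (m : ℕ)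
    (hm : m ≤ r + 1) : LinearIndependent M (frobFam p m v) := by
  induction m with
  | zero =>
    rw [Fintype.linearIndependent_iff]
    intro g hg i
    rw [Fintype.sum_option] at hg
    rcases i with _ | i
    · have h1 : g none • (1 : L) = 0 := by
        simpa [frobFam] using hg
      exact (smul_eq_zero.1 h1).resolve_right one_ne_zero
    · exact i.elim0
  | succ m ih =>
    have ih' := ih (by omega)
    rw [Fintype.linearIndependent_iff] at ih' ⊢
    intro g hg
    rw [Fintype.sum_option, Fin.sum_univ_castSucc] at hg
    have hg' : algebraMap M L (g none) +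
        (∑ i : Fin m, algebraMap M L (g (some i.castSucc)) * v ^ p ^ (i : ℕ) +
          algebraMap M L (g (some (Fin.last m))) * v ^ p ^ m) = 0 := by
      have h2 := hg
      simp only [frobFam, Algebra.smul_def, mul_one, Fin.val_castSucc, Fin.val_last] at h2
      exact h2
    have hlast : g (some (Fin.last m)) = 0 := by
      by_contra hne
      apply hv
      set a : M := g (some (Fin.last m)) with ha
      have hsum : ∑ i : Fin m, algebraMap M L (g (some i.castSucc)) * v ^ p ^ (i : ℕ) =
          ∑ i ∈ Finset.range m, algebraMap M L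
            (if hi : i < m then g (some (Fin.castSucc ⟨i, hi⟩)) else 0) * v ^ p ^ i := by
        rw [Finset.sum_range]
        refine Finset.sum_congr rfl fun i _ => ?_
        rw [dif_pos i.2]
      refine isIn_of_dep h hr p m (by omega) v (-(a⁻¹ * g none))
        (fun i => -(a⁻¹ * (if hi : i < m then g (some (Fin.castSucc ⟨i, hi⟩)) else 0))) ?_
      rw [hsum] at hg'
      have hal : algebraMap M L a ≠ 0 := by
        rw [Ne, map_eq_zero]
        exact hne
      have h3 : algebraMap M L a * v ^ p ^ m = -(algebraMap M L (g none) +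
          ∑ i ∈ Finset.range m, algebraMap M L
            (if hi : i < m then g (some (Fin.castSucc ⟨i, hi⟩)) else 0) * v ^ p ^ i) := by
        linear_combination hg'
      have h4 : v ^ p ^ m = (algebraMap M L a)⁻¹ * (algebraMap M L a * v ^ p ^ m) := by
        rw [inv_mul_cancel_left₀ hal]
      rw [h4, h3]
      simp only [map_neg, map_mul, map_inv₀, mul_add, mul_neg, neg_add, neg_mul,
        Finset.sum_neg_distrib, Finset.mul_sum, mul_assoc]
    rw [hlast, map_zero, zero_mul, add_zero] at hg'
    have h5 := ih' (fun o => match o with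
      | none => g none
      | some i => g (some i.castSucc)) (by
        rw [Fintype.sum_option]
        simp only [frobFam, Algebra.smul_def, mul_one]
        exact hg')
    intro i
    rcases i with _ | i
    · exact h5 none
    · refine Fin.lastCases hlast (fun j => ?_) i
      exact h5 (some j)

end Pool.Agent.RD
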