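import Pool.Agent.Lib.RD.BIso

/-!
MP_0db6a9_al, module BFin (paper: team-store MP_0db6a9_al_paper.md).
Item (3) of Theorem B. Suppose `v` is not in `M`. Let `n` be the least number with
`v^(p^n)` in the span of `1, v, ..., v^(p^(n-1))`; so `v^(p^n) = e + ∑_(a<n) c_a v^(p^a)` and `1, v, ..., v^(p^(n-1))` are
independent; all `v^(p^i)` lie in their span `W` (induction, `M` is perfect or just: raise the relation to the power p).
`n ≤ N - 1 ≤ 2 r`, and `n ≤ N - 2` if `N = 0` in `M` (then `1, v, ..., v^(p^(n-1))` all have trace 0). Scale `v` so that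
`b_r(v)` is 0 or 1. Gram matrix `G_(a,c) = Tr(v^(p^a) v^(p^c))`, `a, c < n`.
(3a) `det G ≠ 0`: `Tr(v^(p^n) v^(p^c)) = ∑_a c_a G_(a,c)`, so by Cramer the `c_a` lie in every subfield containing
`b_(r+1)(v), ..., b_n(v)`. If `N ≠ 0` in `M`, the trace of the relation gives `e = 0`; take `F` containing these `n - r ≤ r`
elements. If `N = 0` in `M`, take `F` containing these and `e`: `n - r + 1 ≤ r` elements. isIn_of_root.
(3b) `det G = 0`: there is a nonzero `z = ∑ z_a v^(p^a)` (`z_a` in `M`) with `Tr(z v^(p^c)) = 0` for `c < n`; also `Tr z = 0`.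
`z` is not in `M`. All `z^(p^i)` lie in `W`, so `b_i(z) = Tr(z z^(p^i)) = 0` for all `i`: contradiction to
isIn_of_isotropic.
-/

namespace Pool.Agent.RD

open Polynomial

/-- the elements `e + ∑_(a<n) c_a v^(p^a)` -/
private def InW (M : Type*) {L : Type*} [Field M] [Field L] [Algebra M L] (p n : ℕ) (v w : L) :
    Prop :=
  ∃ (e : M) (c : Fin n → M), w = algebraMap M L e + ∑ a, algebraMap M L (c a) * v ^ p ^ (a : ℕ)

private theorem InW.base {M L : Type*} [Field M] [Field L] [Algebra M L] {p n : ℕ} {v : L}
    (e : M) : InW M p n v (algebraMap M L e) :=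
  ⟨e, 0, by simp⟩

private theorem InW.add {M L : Type*} [Field M] [Field L] [Algebra M L] {p n : ℕ} {v w w' : L}
    (h : InW M p n v w) (h' : InW M p n v w') : InW M p n v (w + w') := by
  obtain ⟨e, c, rfl⟩ := h
  obtain ⟨e', c', rfl⟩ := h'
  refine ⟨e + e', c + c', ?_⟩
  simp only [map_add, Pi.add_apply, add_mul, Finset.sum_add_distrib]
  ring

private theorem InW.smul {M L : Type*} [Field M] [Field L] [Algebra M L] {p n : ℕ} {v w : L}
    (m : M) (h : InW M p n v w) : InW M p n v (algebraMap M L m * w) := by
  obtain ⟨e, c, rfl⟩ := h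
  refine ⟨m * e, fun a => m * c a, ?_⟩
  simp only [map_mul, mul_add, Finset.mul_sum, mul_assoc]

private theorem InW.sum {M L : Type*} [Field M] [Field L] [Algebra M L] {p n : ℕ} {v : L}
    {ι : Type*} (s : Finset ι) (f : ι → L) (h : ∀ i ∈ s, InW M p n v (f i)) :
    InW M p n v (∑ i ∈ s, f i) := by
  classical
  induction s using Finset.induction_on with
  | empty => simpa using InW.base (M := M) (p := p) (n := n) (v := v) 0
  | insert a s ha ih =>
    rw [Finset.sum_insert ha]
    exact InW.add (h a (Finset.mem_insert_self _ _))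
      (ih fun i hi => h i (Finset.mem_insert_of_mem hi))

private theorem InW.gen {M L : Type*} [Field M] [Field L] [Algebra M L] {p n : ℕ} {v : L}
    (i : ℕ) (hi : i < n) : InW M p n v (v ^ p ^ i) := by
  classical
  refine ⟨0, Pi.single ⟨i, hi⟩ 1, ?_⟩
  rw [Finset.sum_eq_single (⟨i, hi⟩ : Fin n)]
  · simp
  · intro b _ hb
    rw [Pi.single_eq_of_ne hb]
    simp
  · intro hh
    exact absurd (Finset.mem_univ _) hh

/-- `W` is stable under Frobenius -/
private theorem InW.frob {M L : Type*} [Field M] [Field L] [Algebra M L] {p n : ℕ}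
    [Fact p.Prime] [CharP L p] {v w : L} (hn : InW M p n v (v ^ p ^ n)) (h : InW M p n v w) :
    InW M p n v (w ^ p) := by
  obtain ⟨e, c, rfl⟩ := h
  rw [add_pow_char, sum_pow_char, ← map_pow]
  refine InW.add (InW.base _) (InW.sum _ _ fun a _ => ?_)
  rw [mul_pow, ← map_pow, ← pow_mul, ← pow_succ]
  refine InW.smul _ ?_
  rcases Nat.lt_or_ge ((a : ℕ) + 1) n with hlt | hge
  · exact InW.gen _ hlt
  · have : (a : ℕ) + 1 = n := le_antisymm a.2 hge
    rw [this]
    exact hn

private theorem InW.frob_pow {M L : Type*} [Field M] [Field L] [Algebra M L] {p n : ℕ}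
    [Fact p.Prime] [CharP L p] {v w : L} (hn : InW M p n v (v ^ p ^ n)) (h : InW M p n v w)
    (i : ℕ) : InW M p n v (w ^ p ^ i) := by
  induction i with
  | zero => simpa using h
  | succ i ih =>
    rw [pow_succ, pow_mul]
    exact InW.frob hn ih

/-- the trace form vanishes on `W` if it vanishes on the generators -/
private theorem trace_mul_eq_zero {M L : Type*} [Field M] [Field L] [Algebra M L] {p n : ℕ}
    {v z w : L} (h1 : Algebra.trace M L z = 0)
    (h2 : ∀ c : Fin n, Algebra.trace M L (z * v ^ p ^ (c : ℕ)) = 0) (h : InW M p n v w) :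
    Algebra.trace M L (z * w) = 0 := by
  obtain ⟨e, c, rfl⟩ := h
  rw [mul_add, map_add, Finset.mul_sum, map_sum]
  have e1 : z * algebraMap M L e = e • z := by rw [Algebra.smul_def, mul_comm]
  rw [e1, map_smul, h1, smul_zero, zero_add]
  refine Finset.sum_eq_zero fun a _ => ?_
  have e2 : z * (algebraMap M L (c a) * v ^ p ^ (a : ℕ)) = c a • (z * v ^ p ^ (a : ℕ)) := by
    rw [Algebra.smul_def]; ring
  rw [e2, map_smul, h2, smul_zero]

/-- there is a largest `n` for which the family is independent; it satisfies a relation. -/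
private theorem exists_level {M L : Type*} [Field M] [Field L] [Algebra M L]
    [FiniteDimensional M L] (p : ℕ) (v : L) :
    ∃ n : ℕ, LinearIndependent M (frobFam p n v) ∧ InW M p n v (v ^ p ^ n) ∧
      n + 1 ≤ Module.finrank M L := by
  classical
  have hbound : ∀ n, LinearIndependent M (frobFam p n v) → n + 1 ≤ Module.finrank M L := by
    intro n hn
    have := hn.fintype_card_le_finrank
    simpa using this
  have h0 : LinearIndependent M (frobFam p 0 v) := by
    rw [Fintype.linearIndependent_iff]
    intro g hg i
    rw [Fintype.sum_option] at hg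
    simp only [Finset.univ_eq_empty, Finset.sum_empty, add_zero, frobFam] at hg
    rcases i with _ | i
    · rw [smul_eq_zero] at hg
      rcases hg with hg | hg
      · exact hg
      · exact absurd hg one_ne_zero
    · exact i.elim0
  have hex : ∃ n, ¬ LinearIndependent M (frobFam p (n + 1) v) := by
    refine ⟨Module.finrank M L, fun hh => ?_⟩
    have := hbound _ hh
    omega
  let n := Nat.find hex
  have hn1 : ¬ LinearIndependent M (frobFam p (n + 1) v) := Nat.find_spec hex
  have hn0 : LinearIndependent M (frobFam p n v) := by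
    rcases Nat.eq_zero_or_pos n with h | h
    · rw [h]; exact h0
    · have := Nat.find_min hex (m := n - 1) (by omega)
      rw [not_not] at this
      have e : n - 1 + 1 = n := by omega
      rwa [e] at this
  refine ⟨n, hn0, ?_, hbound n hn0⟩
  rw [Fintype.linearIndependent_iff] at hn1
  push Not at hn1
  obtain ⟨g, hg, i0, hi0⟩ := hn1
  rw [Fintype.sum_option, Fin.sum_univ_castSucc] at hg
  simp only [frobFam, Fin.val_castSucc, Fin.val_last] at hg
  have hlast : g (some (Fin.last n)) ≠ 0 := by
    intro hz
    rw [hz, zero_smul, add_zero] at hg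
    have h2 := Fintype.linearIndependent_iff.1 hn0
      (fun o => match o with
        | none => g none
        | some a => g (some a.castSucc)) (by
          rw [Fintype.sum_option]
          simpa only [frobFam] using hg)
    rcases i0 with _ | i
    · exact hi0 (h2 none)
    · induction i using Fin.lastCases with
      | last => exact hi0 hz
      | cast a => exact hi0 (h2 (some a))
  set l := g (some (Fin.last n)) with hl
  refine ⟨-(l⁻¹ * g none), fun a => -(l⁻¹ * g (some a.castSucc)), ?_⟩
  have key : algebraMap M L l⁻¹ * (g none • (1 : L) +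
      (∑ a : Fin n, g (some a.castSucc) • v ^ p ^ (a : ℕ) + l • v ^ p ^ n)) = 0 := by
    rw [hg, mul_zero]
  simp only [Algebra.smul_def, mul_one, mul_add, Finset.mul_sum, ← mul_assoc, ← map_mul,
    inv_mul_cancel₀ hlast, map_one, one_mul] at key
  simp only [map_neg, neg_mul, Finset.sum_neg_distrib]
  linear_combination key

/-- the Gram matrix determines the coefficients -/
private theorem coeff_mem {M : Type*} [Field M] (F : Subfield M) {n : ℕ}
    (G : Matrix (Fin n) (Fin n) M) (hG : G.det ≠ 0) (hGF : ∀ a b, G a b ∈ F)
    (t : Fin n → M) (ht : ∀ a, t a ∈ F) (c : Fin n → M) (hc : G.mulVec c = t) :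
    ∀ a, c a ∈ F := by
  classical
  let G' : Matrix (Fin n) (Fin n) F := fun a b => ⟨G a b, hGF a b⟩
  let t' : Fin n → F := fun a => ⟨t a, ht a⟩
  have hmap : G = G'.map (algebraMap F M) := by
    ext a b; rfl
  have hdet : G'.det ≠ 0 := by
    intro h0
    apply hG
    have : (algebraMap F M) G'.det = (G'.map (algebraMap F M)).det := by
      rw [RingHom.map_det]; rfl
    rw [hmap, ← this, h0, map_zero]
  have hunit : IsUnit G'.det := isUnit_iff_ne_zero.2 hdet
  let x' : Fin n → F := G'⁻¹.mulVec t'
  have hx' : G'.mulVec x' = t' := by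
    simp only [x']
    rw [Matrix.mulVec_mulVec, Matrix.mul_nonsing_inv _ hunit, Matrix.one_mulVec]
  have hx : G.mulVec (fun a => (x' a : M)) = t := by
    ext a
    have := congrArg (fun f : Fin n → F => ((f a : F) : M)) hx'
    simp only [Matrix.mulVec, dotProduct] at this ⊢
    simp only [G', t'] at this
    rw [← this]
    push_cast
    rfl
  have hinj : c = fun a => (x' a : M) := by
    have h1 : G.mulVec (c - fun a => (x' a : M)) = 0 := by
      rw [Matrix.mulVec_sub, hc, hx, sub_self]
    have h2 := Matrix.eq_zero_of_mulVec_eq_zero hG h1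
    exact sub_eq_zero.1 h2
  intro a
  rw [hinj]
  exact (x' a).2

private theorem bform_smul {M L : Type*} [Field M] [Field L] [Algebra M L] (p i : ℕ) (l : M)
    (v : L) : bform M p i (algebraMap M L l * v) = l ^ (1 + p ^ i) * bform M p i v := by
  unfold bform
  rw [mul_pow, ← map_pow, ← Algebra.smul_def, map_smul, smul_eq_mul]

/-- the case where `b_r(v)` is 0 or 1 -/
private theorem bfinal_core {M L : Type*} [Field M] [Field L] [Algebra M L]
    [FiniteDimensional M L] [Algebra.IsSeparable M L] (p : ℕ) [Fact p.Prime] [CharP M p]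
    [CharP L p] {r : ℕ} (h : AlgSub M r) (hr : 1 ≤ r)
    (hN : Module.finrank M L ≤ 2 * r + 1) (v : L) (h0 : Algebra.trace M L v = 0)
    (hb : ∀ i < r, bform M p i v = 0) (hbr : bform M p r v = 0 ∨ bform M p r v = 1) :
    IsIn M v := by
  classical
  obtain ⟨n, hind, hrel, hnN⟩ := exists_level (M := M) p v
  have htr : ∀ i : ℕ, Algebra.trace M L (v ^ p ^ i) = 0 := by
    intro i
    rw [trace_pow_char p i v, h0, zero_pow]
    exact pow_ne_zero _ (Fact.out : p.Prime).ne_zero
  -- all Frobenius powers are in `W`
  have hWv : ∀ i, InW M p n v (v ^ p ^ i) := by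
    intro i
    rcases Nat.lt_or_ge i n with hlt | hge
    · exact InW.gen _ hlt
    · obtain ⟨j, rfl⟩ := Nat.exists_eq_add_of_le hge
      rw [pow_add, pow_mul]
      exact InW.frob_pow hrel hrel j
  obtain ⟨e, c, hec⟩ := hrel
  set G : Matrix (Fin n) (Fin n) M :=
    fun a b => Algebra.trace M L (v ^ p ^ (a : ℕ) * v ^ p ^ (b : ℕ)) with hGdef
  have hrel' : InW M p n v (v ^ p ^ n) := ⟨e, c, hec⟩
  by_cases hdet : G.det = 0
  · -- (3b)
    obtain ⟨z, hz0, hz⟩ := Matrix.exists_mulVec_eq_zero_iff.2 hdet
    exfalso
    set zz : L := ∑ a, algebraMap M L (z a) * v ^ p ^ (a : ℕ) with hzz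
    have hzW : InW M p n v zz := ⟨0, z, by simp [hzz]⟩
    have ht1 : Algebra.trace M L zz = 0 := by
      rw [hzz, map_sum]
      refine Finset.sum_eq_zero fun a _ => ?_
      rw [← Algebra.smul_def, map_smul, htr, smul_zero]
    have ht2 : ∀ b : Fin n, Algebra.trace M L (zz * v ^ p ^ (b : ℕ)) = 0 := by
      intro b
      have := congrFun hz b
      simp only [Matrix.mulVec, dotProduct, Pi.zero_apply, hGdef] at this
      rw [hzz, Finset.sum_mul, map_sum, ← this]
      refine Finset.sum_congr rfl fun a _ => ?_
      rw [mul_assoc, ← Algebra.smul_def, map_smul, smul_eq_mul, mul_comm (z a),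
        mul_comm (v ^ p ^ (a : ℕ))]
    have hb0 : ∀ i, bform M p i zz = 0 := by
      intro i
      unfold bform
      rw [pow_add, pow_one]
      exact trace_mul_eq_zero ht1 ht2 (InW.frob_pow hrel' hzW i)
    obtain ⟨m, hm⟩ := isIn_of_isotropic p h hr hN zz hb0
    apply hz0
    have h2 := Fintype.linearIndependent_iff.1 hind
      (fun o => match o with
        | none => m
        | some a => -(z a)) (by
          rw [Fintype.sum_option]
          simp only [frobFam, Algebra.smul_def, map_neg, neg_mul, Finset.sum_neg_distrib,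
            mul_one]
          rw [← hzz, hm]
          ring)
    ext a
    have := h2 (some a)
    simpa using this
  · -- (3a)
    -- the subfield
    have hfin : ∀ F : Subfield M, IsAlgClosed F → (∀ i ∈ Finset.Icc (r + 1) n, bform M p i v ∈ F) →
        e ∈ F → IsIn M v := by
      intro F hF hbF he
      have hbF' : ∀ i ≤ n, bform M p i v ∈ F := by
        intro i hi
        rcases lt_trichotomy i r with hlt | heq | hgt
        · rw [hb i hlt]; exact F.zero_mem
        · rw [heq]
          rcases hbr with h1 | h1
          · rw [h1]; exact F.zero_mem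
          · rw [h1]; exact F.one_mem
        · exact hbF i (Finset.mem_Icc.2 ⟨hgt, hi⟩)
      have hpair : ∀ a b : ℕ, a ≤ n → b ≤ n →
          Algebra.trace M L (v ^ p ^ a * v ^ p ^ b) ∈ F := by
        intro a b ha hb'
        rw [trace_mul_pow p a b v]
        refine pow_mem (hbF' _ ?_) _
        omega
      have hcF : ∀ a, c a ∈ F := by
        refine coeff_mem F G hdet (fun a b => hpair _ _ a.2.le b.2.le)
          (fun b => Algebra.trace M L (v ^ p ^ n * v ^ p ^ (b : ℕ)))
          (fun b => hpair _ _ le_rfl b.2.le) c ?_
        ext b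
        simp only [Matrix.mulVec, dotProduct, hGdef]
        rw [hec, add_mul, map_add, Finset.sum_mul, map_sum, ← Algebra.smul_def, map_smul, htr,
          smul_zero, zero_add]
        refine Finset.sum_congr rfl fun a _ => ?_
        rw [mul_assoc, ← Algebra.smul_def, map_smul, smul_eq_mul, mul_comm (c a),
          mul_comm (v ^ p ^ (a : ℕ))]
      -- the polynomial
      have hp : 1 < p := (Fact.out : p.Prime).one_lt
      let Q : M[X] := C e + ∑ a : Fin n, C (c a) * X ^ p ^ (a : ℕ)
      have hQdeg : Q.degree < ((p ^ n : ℕ) : WithBot ℕ) := by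
        refine lt_of_le_of_lt (degree_add_le _ _) (max_lt ?_ ?_)
        · refine lt_of_le_of_lt degree_C_le ?_
          have : 0 < p ^ n := pow_pos (by omega) _
          exact_mod_cast this
        · refine lt_of_le_of_lt (degree_sum_le _ _) ?_
          rw [Finset.sup_lt_iff (WithBot.bot_lt_coe _)]
          intro a _
          refine lt_of_le_of_lt (degree_C_mul_X_pow_le _ _) ?_
          have : p ^ (a : ℕ) < p ^ n := Nat.pow_lt_pow_right hp a.2
          exact_mod_cast this
      have hP : (X ^ p ^ n - Q) ≠ 0 := by
        intro hh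
        have : (X ^ p ^ n : M[X]).degree = Q.degree := by rw [sub_eq_zero.1 hh]
        rw [degree_X_pow] at this
        rw [← this] at hQdeg
        exact absurd hQdeg (lt_irrefl _)
      refine isIn_of_root F hF (X ^ p ^ n - Q) hP ?_ v ?_
      · intro i
        rw [coeff_sub, coeff_X_pow]
        refine sub_mem ?_ ?_
        · split_ifs
          · exact F.one_mem
          · exact F.zero_mem
        · simp only [Q, coeff_add, finsetSum_coeff, coeff_C, coeff_C_mul, coeff_X_pow]
          refine add_mem ?_ (sum_mem fun a _ => mul_mem (hcF a) ?_)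
          · split_ifs
            · exact he
            · exact F.zero_mem
          · split_ifs
            · exact F.one_mem
            · exact F.zero_mem
      · simp only [Q, map_sub, map_add, map_sum, map_mul, map_pow, aeval_X, aeval_C]
        rw [sub_eq_zero]
        exact hec
    by_cases hcar : (Module.finrank M L : M) = 0
    · -- `N = 0` in `M`
      have hker : n + 1 ≤ Module.finrank M (LinearMap.ker (Algebra.trace M L)) := by
        have hmem : ∀ o, frobFam p n v o ∈ LinearMap.ker (Algebra.trace M L) := by
          intro o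
          rw [LinearMap.mem_ker]
          rcases o with _ | a
          · have : (1 : L) = algebraMap M L 1 := (map_one _).symm
            simp only [frobFam]
            rw [this, Algebra.trace_algebraMap, nsmul_eq_mul, hcar, zero_mul]
          · exact htr _
        have hli : LinearIndependent M
            (fun o => (⟨frobFam p n v o, hmem o⟩ : LinearMap.ker (Algebra.trace M L))) := by
          refine LinearIndependent.of_comp (LinearMap.ker (Algebra.trace M L)).subtype ?_
          exact hind
        have := hli.fintype_card_le_finrank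
        simpa using this
      have hrank := LinearMap.finrank_range_add_finrank_ker (Algebra.trace M L)
      have hsurj : Module.finrank M (LinearMap.range (Algebra.trace M L)) = 1 := by
        rw [LinearMap.range_eq_top.2 (Algebra.trace_surjective M L)]
        simp
      obtain ⟨F, hF, hmem⟩ := exists_sub h (ι := Option (Finset.Icc (r + 1) n))
        (by simp; omega) (fun o => match o with
          | none => e
          | some i => bform M p i v)
      refine hfin F hF (fun i hi => hmem (some ⟨i, hi⟩)) (hmem none)
    · -- `N ≠ 0` in `M`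
      have he : e = 0 := by
        have := congrArg (Algebra.trace M L) hec
        rw [htr, map_add, Algebra.trace_algebraMap, map_sum] at this
        rw [Finset.sum_eq_zero, add_zero, nsmul_eq_mul] at this
        · rcases mul_eq_zero.1 this.symm with h1 | h1
          · exact absurd h1 hcar
          · exact h1
        · intro a _
          rw [← Algebra.smul_def, map_smul, htr, smul_zero]
      obtain ⟨F, hF, hmem⟩ := exists_sub_finset h (Finset.Icc (r + 1) n)
        (by rw [Nat.card_Icc]; omega) (fun i => bform M p i v)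
      exact hfin F hF hmem (by rw [he]; exact F.zero_mem)

/-- BFIN: item (3) of the proof of Theorem B. -/
theorem bfinal {M L : Type*} [Field M] [Field L] [Algebra M L]
    [FiniteDimensional M L] [Algebra.IsSeparable M L] (p : ℕ) [Fact p.Prime] [CharP M p]
    [CharP L p] {r : ℕ} (h : AlgSub M r) (hr : 1 ≤ r)
    (hN : Module.finrank M L ≤ 2 * r + 1) (v : L) (h0 : Algebra.trace M L v = 0)
    (hb : ∀ i < r, bform M p i v = 0) : IsIn M v := by
  by_cases hbr : bform M p r v = 0
  · exact bfinal_core p h hr hN v h0 hb (Or.inl hbr)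
  · obtain ⟨l, hl⟩ := exists_root_pow h hr (1 + p ^ r) (by positivity) (bform M p r v)⁻¹
    have hl0 : l ≠ 0 := by
      rintro rfl
      rw [zero_pow (by positivity)] at hl
      exact (inv_ne_zero hbr) hl.symm
    refine isIn_of_smul l hl0 v (bfinal_core p h hr hN _ ?_ ?_ ?_)
    · rw [← Algebra.smul_def, map_smul, h0, smul_zero]
    · intro i hi
      rw [bform_smul, hb i hi, mul_zero]
    · right
      rw [bform_smul, hl, inv_mul_cancel₀ hbr]

end Pool.Agent.RD
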