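import Pool.Agent.Lib.RD.Tr

/-!
MP_0db6a9_al, module Gram (paper: team-store MP_0db6a9_al_paper.md).
Let `i, l < r` and consider `G_(a,c) = Tr(v^(p^a) v^(p^c))`, `a, c < 2 r`. By trace_mul_pow `G_(a,c) = b_|a-c|(v)^(p^min(a,c))`,
which is 0 for `|a - c| < r`. Suppose `∑_(a < 2r) x_a G_(a,c) = 0` for all `c < 2r`. For `c = r-1, r-2, ..., 0` (in this order) the
equation contains only the `x_a` with `a ≥ c + r` (those with `|a - c| ≥ r`), so downward induction gives `x_(c+r) = 0` for all
`c < r` (coefficient `b_r^(p^c) ≠ 0`). Then for `c = r, r+1, ..., 2r-1` the equation contains only `x_a` with `a ≤ c - r`, and upward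
induction gives `x_(c-r) = 0`.
-/

namespace Pool.Agent.RD

open Polynomial

private theorem gram_step {M L : Type*} [Field M] [Field L] [Algebra M L]
    [FiniteDimensional M L] [Algebra.IsSeparable M L] (p : ℕ) [Fact p.Prime] [CharP M p]
    {r : ℕ} (v : L) (hb : ∀ i < r, bform M p i v = 0) (hbr : bform M p r v ≠ 0)
    (x : ℕ → M) (c a0 : ℕ) (ha0 : a0 < 2 * r) (hr : max a0 c - min a0 c = r)
    (h0 : ∀ a < 2 * r, a ≠ a0 → x a = 0 ∨ max a c - min a c < r)
    (hx : ∑ a ∈ Finset.range (2 * r),
      x a * Algebra.trace M L (v ^ p ^ a * v ^ p ^ c) = 0) : x a0 = 0 := by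
  rw [Finset.sum_eq_single a0] at hx
  · rw [trace_mul_pow, hr] at hx
    rcases mul_eq_zero.1 hx with h | h
    · exact h
    · exact absurd h (pow_ne_zero _ hbr)
  · intro a ha hne
    rcases h0 a (Finset.mem_range.1 ha) hne with h | h
    · rw [h, zero_mul]
    · rw [trace_mul_pow, hb _ h, zero_pow (pow_ne_zero _ (Fact.out : p.Prime).ne_zero), mul_zero]
  · intro h
    exact absurd (Finset.mem_range.2 ha0) h

/-- GRAM: if `b_0 = ... = b_(r-1) = 0` and `b_r ≠ 0` then the Gram matrix of
`v, v^p, ..., v^(p^(2r-1))` is nonsingular. -/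
theorem gram_nonsingular {M L : Type*} [Field M] [Field L] [Algebra M L]
    [FiniteDimensional M L] [Algebra.IsSeparable M L] (p : ℕ) [Fact p.Prime] [CharP M p]
    {r : ℕ} (v : L) (hb : ∀ i < r, bform M p i v = 0) (hbr : bform M p r v ≠ 0)
    (x : ℕ → M)
    (hx : ∀ c < 2 * r, ∑ a ∈ Finset.range (2 * r),
      x a * Algebra.trace M L (v ^ p ^ a * v ^ p ^ c) = 0) :
    ∀ a < 2 * r, x a = 0 := by
  have h1 : ∀ k c : ℕ, c + k = r - 1 → c < r → x (c + r) = 0 := by
    intro k
    induction k using Nat.strong_induction_on with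
    | _ k ih =>
      intro c hck hc
      refine gram_step p v hb hbr x c (c + r) (by omega) (by omega) ?_ (hx c (by omega))
      intro a ha hne
      rcases lt_or_ge (c + r) a with h | h
      · left
        have h2 := ih (k - (a - (c + r))) (by omega) (a - r) (by omega) (by omega)
        rwa [Nat.sub_add_cancel (by omega)] at h2
      · right
        rcases le_total a c with h3 | h3
        · rw [max_eq_right h3, min_eq_left h3]; omega
        · rw [max_eq_left h3, min_eq_right h3]; omega
  have h2 : ∀ a : ℕ, a < r → x a = 0 := by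
    intro a
    induction a using Nat.strong_induction_on with
    | _ a ih =>
      intro ha
      refine gram_step p v hb hbr x (a + r) a (by omega) (by omega) ?_ (hx (a + r) (by omega))
      intro a' ha' hne
      rcases lt_or_ge a' a with h | h
      · exact Or.inl (ih a' h (by omega))
      · right
        rcases le_total a' (a + r) with h3 | h3
        · rw [max_eq_right h3, min_eq_left h3]; omega
        · rw [max_eq_left h3, min_eq_right h3]; omega
  intro a ha
  rcases lt_or_ge a r with h | h
  · exact h2 a h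
  · have h3 := h1 (2 * r - 1 - a) (a - r) (by omega) (by omega)
    rwa [Nat.sub_add_cancel h] at h3

end Pool.Agent.RD
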