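import Pool.Agent.Lib.RD.BIso2
import Pool.Agent.Lib.RD.AddP
import Pool.Agent.Lib.RD.Gram

/-!
MP_0db6a9_al, module BFin2 (paper: team-store MP_0db6a9_al_paper.md).
As BFin (see the header there) with `N ≤ 2 r + 2`. Suppose `v` is not in `M`; `n` least with
`v^(p^n) = e + ∑_(a<n) c_a v^(p^a)`; `1, v, ..., v^(p^(n-1))` independent; `n ≤ N - 1 ≤ 2 r + 1`, and `n ≤ N - 2 ≤ 2 r` if `N = 0` in
`M`. Scale `v` so that `b_r(v)` is 0 or 1. `G_(a,c) = Tr(v^(p^a) v^(p^c))`, `a, c < n`.
(3b) `det G = 0`: as in BFin, with isIn_of_isotropic2.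
(3a) `det G ≠ 0`. If `n ≤ 2 r`: the `c_a` lie in an algebraically closed subfield `F` containing `b_(r+1), ..., b_n` (`n - r ≤ r`
elements); isIn_of_additive with this `F` and `e` (any `e ∈ M`).
If `n = 2 r + 1`: then `N = 2 r + 2`, `N ≠ 0` in `M`, so `p` is odd, `e = 0`, the trace zero subspace is `W = span(v, .., v^(p^(2r)))`.
Here `b_r(v) ≠ 0`: otherwise `v, ..., v^(p^r)` are `r + 1` independent pairwise orthogonal elements of `W` which is
nondegenerate of dimension `2 r + 1`. So `b_r = 1`. Let `F` be an algebraically closed subfield containing `b_(r+1), ..., b_(2r)`: all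
`G_(a,c)` are in `F` (`|a-c| ≤ 2r`). `d_a = Tr(v^(p^n) v^(p^a))`, `d_a ∈ F` for `a ≥ 1`, `d_0 = b_(2r+1) = θ`. `c = G^(-1) d` and
`∑_a c_a d_a = Tr(v^(p^n) v^(p^n)) = b_0(v)^(p^n) = 0`, i.e. `d^T G^(-1) d = 0`: a quadratic equation for `θ` over `F` with leading
coefficient `(G^(-1))_(0,0)`. This is nonzero: put `g = ∑_a (G^(-1))_(0,a) v^(p^a)`, so `Tr(g v^(p^c)) = δ_(0,c)`; if
`(G^(-1))_(0,0) = 0` then `g = g'^p` with `g' = ∑_(a<2r) x_a v^(p^a)` (`x_a^p = (G^(-1))_(0,a+1)`, M perfect) and
`Tr(g' v^(p^c))^p = Tr(g v^(p^(c+1))) = 0` for `c < 2 r`, so `g' = 0` by gram_nonsingular, contradiction. So `θ ∈ F`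
(isIn_of_root with `L = M`), all `c_a ∈ F`, and isIn_of_root gives `v ∈ M`.
-/

namespace Pool.Agent.RD

open Polynomial

/-- the elements `e + ∑_(a<n) c_a v^(p^a)` -/
private def InW (M : Type*) {L : Type*} [Field M] [Field L] [Algebra M L] (p n : ℕ) (v w : L) :
    Prop :=
  ∃ (e : M) (c : Fin n → M), w = algebraMap M L e + ∑ a, algebraMap M L (c a) * v ^ p ^ (a : ℕ)

private theorem InW.base {M L : Type*} [Field M] [Field L] [Algebra M L] {p n : ℕ} {v : L}
    (e : M) : InW M p n v (algebraMap M L e) :=
  ⟨e, 0, by simp⟩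

private theorem InW.add {M L : Type*} [Field M] [Field L] [Algebra M L] {p n : ℕ} {v w w' : L}
    (h : InW M p n v w) (h' : InW M p n v w') : InW M p n v (w + w') := by
  obtain ⟨e, c, rfl⟩ := h
  obtain ⟨e', c', rfl⟩ := h'
  refine ⟨e + e', c + c', ?_⟩
  simp only [map_add, Pi.add_apply, add_mul, Finset.sum_add_distrib]
  ring

private theorem InW.smul {M L : Type*} [Field M] [Field L] [Algebra M L] {p n : ℕ} {v w : L}
    (m : M) (h : InW M p n v w) : InW M p n v (algebraMap M L m * w) := by
  obtain ⟨e, c, rfl⟩ := h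
  refine ⟨m * e, fun a => m * c a, ?_⟩
  simp only [map_mul, mul_add, Finset.mul_sum, mul_assoc]

private theorem InW.sum {M L : Type*} [Field M] [Field L] [Algebra M L] {p n : ℕ} {v : L}
    {ι : Type*} (s : Finset ι) (f : ι → L) (h : ∀ i ∈ s, InW M p n v (f i)) :
    InW M p n v (∑ i ∈ s, f i) := by
  classical
  induction s using Finset.induction_on with
  | empty => simpa using InW.base (M := M) (p := p) (n := n) (v := v) 0
  | insert a s ha ih =>
    rw [Finset.sum_insert ha]
    exact InW.add (h a (Finset.mem_insert_self _ _))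
      (ih fun i hi => h i (Finset.mem_insert_of_mem hi))

private theorem InW.gen {M L : Type*} [Field M] [Field L] [Algebra M L] {p n : ℕ} {v : L}
    (i : ℕ) (hi : i < n) : InW M p n v (v ^ p ^ i) := by
  classical
  refine ⟨0, Pi.single ⟨i, hi⟩ 1, ?_⟩
  rw [Finset.sum_eq_single (⟨i, hi⟩ : Fin n)]
  · simp
  · intro b _ hb
    rw [Pi.single_eq_of_ne hb]
    simp
  · intro hh
    exact absurd (Finset.mem_univ _) hh

/-- `W` is stable under Frobenius -/
private theorem InW.frob {M L : Type*} [Field M] [Field L] [Algebra M L] {p n : ℕ}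
    [Fact p.Prime] [CharP L p] {v w : L} (hn : InW M p n v (v ^ p ^ n)) (h : InW M p n v w) :
    InW M p n v (w ^ p) := by
  obtain ⟨e, c, rfl⟩ := h
  rw [add_pow_char, sum_pow_char, ← map_pow]
  refine InW.add (InW.base _) (InW.sum _ _ fun a _ => ?_)
  rw [mul_pow, ← map_pow, ← pow_mul, ← pow_succ]
  refine InW.smul _ ?_
  rcases Nat.lt_or_ge ((a : ℕ) + 1) n with hlt | hge
  · exact InW.gen _ hlt
  · have : (a : ℕ) + 1 = n := le_antisymm a.2 hge
    rw [this]
    exact hn

private theorem InW.frob_pow {M L : Type*} [Field M] [Field L] [Algebra M L] {p n : ℕ}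
    [Fact p.Prime] [CharP L p] {v w : L} (hn : InW M p n v (v ^ p ^ n)) (h : InW M p n v w)
    (i : ℕ) : InW M p n v (w ^ p ^ i) := by
  induction i with
  | zero => simpa using h
  | succ i ih =>
    rw [pow_succ, pow_mul]
    exact InW.frob hn ih

/-- the trace form vanishes on `W` if it vanishes on the generators -/
private theorem trace_mul_eq_zero {M L : Type*} [Field M] [Field L] [Algebra M L] {p n : ℕ}
    {v z w : L} (h1 : Algebra.trace M L z = 0)
    (h2 : ∀ c : Fin n, Algebra.trace M L (z * v ^ p ^ (c : ℕ)) = 0) (h : InW M p n v w) :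
    Algebra.trace M L (z * w) = 0 := by
  obtain ⟨e, c, rfl⟩ := h
  rw [mul_add, map_add, Finset.mul_sum, map_sum]
  have e1 : z * algebraMap M L e = e • z := by rw [Algebra.smul_def, mul_comm]
  rw [e1, map_smul, h1, smul_zero, zero_add]
  refine Finset.sum_eq_zero fun a _ => ?_
  have e2 : z * (algebraMap M L (c a) * v ^ p ^ (a : ℕ)) = c a • (z * v ^ p ^ (a : ℕ)) := by
    rw [Algebra.smul_def]; ring
  rw [e2, map_smul, h2, smul_zero]

/-- there is a largest `n` for which the family is independent; it satisfies a relation. -/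
private theorem exists_level {M L : Type*} [Field M] [Field L] [Algebra M L]
    [FiniteDimensional M L] (p : ℕ) (v : L) :
    ∃ n : ℕ, LinearIndependent M (frobFam p n v) ∧ InW M p n v (v ^ p ^ n) ∧
      n + 1 ≤ Module.finrank M L := by
  classical
  have hbound : ∀ n, LinearIndependent M (frobFam p n v) → n + 1 ≤ Module.finrank M L := by
    intro n hn
    have := hn.fintype_card_le_finrank
    simpa using this
  have h0 : LinearIndependent M (frobFam p 0 v) := by
    rw [Fintype.linearIndependent_iff]
    intro g hg i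
    rw [Fintype.sum_option] at hg
    simp only [Finset.univ_eq_empty, Finset.sum_empty, add_zero, frobFam] at hg
    rcases i with _ | i
    · rw [smul_eq_zero] at hg
      rcases hg with hg | hg
      · exact hg
      · exact absurd hg one_ne_zero
    · exact i.elim0
  have hex : ∃ n, ¬ LinearIndependent M (frobFam p (n + 1) v) := by
    refine ⟨Module.finrank M L, fun hh => ?_⟩
    have := hbound _ hh
    omega
  let n := Nat.find hex
  have hn1 : ¬ LinearIndependent M (frobFam p (n + 1) v) := Nat.find_spec hex
  have hn0 : LinearIndependent M (frobFam p n v) := by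
    rcases Nat.eq_zero_or_pos n with h | h
    · rw [h]; exact h0
    · have := Nat.find_min hex (m := n - 1) (by omega)
      rw [not_not] at this
      have e : n - 1 + 1 = n := by omega
      rwa [e] at this
  refine ⟨n, hn0, ?_, hbound n hn0⟩
  rw [Fintype.linearIndependent_iff] at hn1
  push Not at hn1
  obtain ⟨g, hg, i0, hi0⟩ := hn1
  rw [Fintype.sum_option, Fin.sum_univ_castSucc] at hg
  simp only [frobFam, Fin.val_castSucc, Fin.val_last] at hg
  have hlast : g (some (Fin.last n)) ≠ 0 := by
    intro hz
    rw [hz, zero_smul, add_zero] at hg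
    have h2 := Fintype.linearIndependent_iff.1 hn0
      (fun o => match o with
        | none => g none
        | some a => g (some a.castSucc)) (by
          rw [Fintype.sum_option]
          simpa only [frobFam] using hg)
    rcases i0 with _ | i
    · exact hi0 (h2 none)
    · induction i using Fin.lastCases with
      | last => exact hi0 hz
      | cast a => exact hi0 (h2 (some a))
  set l := g (some (Fin.last n)) with hl
  refine ⟨-(l⁻¹ * g none), fun a => -(l⁻¹ * g (some a.castSucc)), ?_⟩
  have key : algebraMap M L l⁻¹ * (g none • (1 : L) +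
      (∑ a : Fin n, g (some a.castSucc) • v ^ p ^ (a : ℕ) + l • v ^ p ^ n)) = 0 := by
    rw [hg, mul_zero]
  simp only [Algebra.smul_def, mul_one, mul_add, Finset.mul_sum, ← mul_assoc, ← map_mul,
    inv_mul_cancel₀ hlast, map_one, one_mul] at key
  simp only [map_neg, neg_mul, Finset.sum_neg_distrib]
  linear_combination key

/-- the Gram matrix determines the coefficients -/
private theorem coeff_mem {M : Type*} [Field M] (F : Subfield M) {n : ℕ}
    (G : Matrix (Fin n) (Fin n) M) (hG : G.det ≠ 0) (hGF : ∀ a b, G a b ∈ F)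
    (t : Fin n → M) (ht : ∀ a, t a ∈ F) (c : Fin n → M) (hc : G.mulVec c = t) :
    ∀ a, c a ∈ F := by
  classical
  let G' : Matrix (Fin n) (Fin n) F := fun a b => ⟨G a b, hGF a b⟩
  let t' : Fin n → F := fun a => ⟨t a, ht a⟩
  have hmap : G = G'.map (algebraMap F M) := by
    ext a b; rfl
  have hdet : G'.det ≠ 0 := by
    intro h0
    apply hG
    have : (algebraMap F M) G'.det = (G'.map (algebraMap F M)).det := by
      rw [RingHom.map_det]; rfl
    rw [hmap, ← this, h0, map_zero]
  have hunit : IsUnit G'.det := isUnit_iff_ne_zero.2 hdet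
  let x' : Fin n → F := G'⁻¹.mulVec t'
  have hx' : G'.mulVec x' = t' := by
    simp only [x']
    rw [Matrix.mulVec_mulVec, Matrix.mul_nonsing_inv _ hunit, Matrix.one_mulVec]
  have hx : G.mulVec (fun a => (x' a : M)) = t := by
    ext a
    have := congrArg (fun f : Fin n → F => ((f a : F) : M)) hx'
    simp only [Matrix.mulVec, dotProduct] at this ⊢
    simp only [G', t'] at this
    rw [← this]
    push_cast
    rfl
  have hinj : c = fun a => (x' a : M) := by
    have h1 : G.mulVec (c - fun a => (x' a : M)) = 0 := by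
      rw [Matrix.mulVec_sub, hc, hx, sub_self]
    have h2 := Matrix.eq_zero_of_mulVec_eq_zero hG h1
    exact sub_eq_zero.1 h2
  intro a
  rw [hinj]
  exact (x' a).2

private theorem bform_smul {M L : Type*} [Field M] [Field L] [Algebra M L] (p i : ℕ) (l : M)
    (v : L) : bform M p i (algebraMap M L l * v) = l ^ (1 + p ^ i) * bform M p i v := by
  unfold bform
  rw [mul_pow, ← map_pow, ← Algebra.smul_def, map_smul, smul_eq_mul]

/-- an element of `M` algebraic over the algebraically closed subfield `F` lies in `F` -/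
private theorem mem_of_root {M : Type*} [Field M] (F : Subfield M) (hF : IsAlgClosed F)
    (a b c : M) (ha : a ∈ F) (hb : b ∈ F) (hc : c ∈ F) (ha0 : a ≠ 0) (t : M)
    (ht : a * t ^ 2 + b * t + c = 0) : t ∈ F := by
  have htop : IsAlgClosed (⊤ : Subfield F) :=
    IsAlgClosed.of_ringEquiv F (⊤ : Subfield F) Subfield.topEquiv.symm
  let P : F[X] := C ⟨a, ha⟩ * X ^ 2 + C ⟨b, hb⟩ * X + C ⟨c, hc⟩
  have hP : P ≠ 0 := by
    intro h0
    have h2 : P.coeff 2 = 0 := by rw [h0, coeff_zero]
    simp only [P, coeff_add, coeff_C_mul, coeff_X_pow, coeff_X, coeff_C] at h2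
    norm_num at h2
    exact ha0 (by simpa using congrArg Subtype.val h2)
  have h1 : IsIn F t := by
    refine isIn_of_root (⊤ : Subfield F) htop P hP (fun i => Subfield.mem_top _) t ?_
    simp only [P, map_add, map_mul, map_pow, aeval_X, aeval_C]
    exact ht
  obtain ⟨y, hy⟩ := h1
  rw [← hy]
  exact y.2

/-- solving the relation once all coefficients are in `F` -/
private theorem isIn_of_rel {M L : Type*} [Field M] [Field L] [Algebra M L] {r : ℕ}
    (h : AlgSub M r) (hr : 1 ≤ r) (p : ℕ) [Fact p.Prime] [CharP M p] [CharP L p]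
    (F : Subfield M) (hF : IsAlgClosed F) (n : ℕ) (c : Fin n → M) (hc : ∀ a, c a ∈ F)
    (e : M) (v : L)
    (hv : v ^ p ^ n = algebraMap M L e + ∑ a, algebraMap M L (c a) * v ^ p ^ (a : ℕ)) :
    IsIn M v := by
  classical
  refine isIn_of_additive h hr p F hF n (fun i => if hi : i < n then c ⟨i, hi⟩ else 0) ?_ e v ?_
  · intro i hi
    simp only [dif_pos hi]
    exact hc _
  · rw [hv, Finset.sum_range]
    congr 1
    refine Finset.sum_congr rfl fun a _ => ?_
    simp only [a.2, dif_pos, Fin.eta]

/-- the corner entry of the inverse Gram matrix does not vanish -/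
private theorem inv_corner_ne_zero {M L : Type*} [Field M] [Field L] [Algebra M L]
    [FiniteDimensional M L] [Algebra.IsSeparable M L] (p : ℕ) [Fact p.Prime] [CharP M p]
    {r : ℕ} (h : AlgSub M r) (hr : 1 ≤ r) (v : L) (hb : ∀ i < r, bform M p i v = 0)
    (hbr : bform M p r v ≠ 0) (x : ℕ → M)
    (hx : ∀ c < 2 * r + 1, ∑ a ∈ Finset.range (2 * r + 1),
      x a * Algebra.trace M L (v ^ p ^ a * v ^ p ^ c) = if c = 0 then 1 else 0) :
    x 0 ≠ 0 := by
  classical
  intro hx0
  have hp : 0 < p := (Fact.out : p.Prime).pos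
  choose y hy using fun a : ℕ => exists_root_pow h hr p hp (x (a + 1))
  have key : ∀ a < 2 * r, y a = 0 := by
    refine gram_nonsingular p v hb hbr y ?_
    intro c hc
    have h1 := hx (c + 1) (by omega)
    rw [if_neg (Nat.succ_ne_zero c), Finset.sum_range_succ', hx0, zero_mul, add_zero] at h1
    have h2 : (∑ a ∈ Finset.range (2 * r),
        y a * Algebra.trace M L (v ^ p ^ a * v ^ p ^ c)) ^ p = 0 := by
      rw [sum_pow_char, ← h1]
      refine Finset.sum_congr rfl fun a _ => ?_
      rw [mul_pow, hy]
      congr 1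
      have h3 := trace_pow_char (M := M) p 1 (v ^ p ^ a * v ^ p ^ c)
      rw [pow_one] at h3
      rw [← h3, mul_pow, ← pow_mul, ← pow_mul, ← pow_succ, ← pow_succ]
    exact pow_eq_zero_iff (Fact.out : p.Prime).ne_zero |>.1 h2
  have h0 := hx 0 (by omega)
  rw [if_pos rfl, Finset.sum_range_succ', hx0, zero_mul, add_zero] at h0
  rw [Finset.sum_eq_zero] at h0
  · exact zero_ne_one h0
  · intro a ha
    rw [← hy a, key a (Finset.mem_range.1 ha), zero_pow (Fact.out : p.Prime).ne_zero, zero_mul]

/-- the last value `d_0` lies in `F` -/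
private theorem corner_mem {M : Type*} [Field M] (F : Subfield M) (hF : IsAlgClosed F) {n : ℕ}
    (G : Matrix (Fin (n + 1)) (Fin (n + 1)) M) (hG : G.det ≠ 0) (hGF : ∀ a b, G a b ∈ F)
    (hcor : G⁻¹ 0 0 ≠ 0) (c t : Fin (n + 1) → M) (hc : G.mulVec c = t)
    (ht : ∀ a : Fin n, t a.succ ∈ F) (h0 : ∑ a, t a * c a = 0) : t 0 ∈ F := by
  classical
  have hunit : IsUnit G.det := isUnit_iff_ne_zero.2 hG
  set H := G⁻¹ with hH
  have hcH : c = H.mulVec t := by
    rw [← hc, Matrix.mulVec_mulVec, hH, Matrix.nonsing_inv_mul _ hunit, Matrix.one_mulVec]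
  have hHF : ∀ a b, H a b ∈ F := by
    intro a b
    have h1 : G.mulVec (fun i => H i b) = fun i => (1 : Matrix _ _ M) i b := by
      ext i
      have := congrFun (congrFun (Matrix.mul_nonsing_inv G hunit) i) b
      rw [← this]
      rfl
    refine coeff_mem F G hG hGF _ ?_ (fun i => H i b) h1 a
    intro i
    rw [Matrix.one_apply]
    split_ifs
    · exact F.one_mem
    · exact F.zero_mem
  refine mem_of_root F hF (H 0 0)
    (∑ b : Fin n, (H 0 b.succ * t b.succ) + ∑ a : Fin n, t a.succ * H a.succ 0)
    (∑ a : Fin n, t a.succ * ∑ b : Fin n, H a.succ b.succ * t b.succ)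
    (hHF _ _) ?_ ?_ hcor (t 0) ?_
  · exact add_mem (sum_mem fun b _ => mul_mem (hHF _ _) (ht _))
      (sum_mem fun a _ => mul_mem (ht _) (hHF _ _))
  · exact sum_mem fun a _ => mul_mem (ht _) (sum_mem fun b _ => mul_mem (hHF _ _) (ht _))
  · rw [← h0, hcH]
    simp only [Matrix.mulVec, dotProduct, Fin.sum_univ_succ, mul_add, Finset.sum_add_distrib]
    have e1 : ∑ a : Fin n, t a.succ * (H a.succ 0 * t 0) =
        (∑ a : Fin n, t a.succ * H a.succ 0) * t 0 := by
      rw [Finset.sum_mul]
      exact Finset.sum_congr rfl fun a _ => by ring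
    rw [e1]
    ring

/-- the case where `b_r(v)` is 0 or 1 -/
private theorem bfinal_core {M L : Type*} [Field M] [Field L] [Algebra M L]
    [FiniteDimensional M L] [Algebra.IsSeparable M L] (p : ℕ) [Fact p.Prime] [CharP M p]
    [CharP L p] {r : ℕ} (h : AlgSub M r) (hr : 1 ≤ r)
    (hN : Module.finrank M L ≤ 2 * r + 2) (v : L) (h0 : Algebra.trace M L v = 0)
    (hb : ∀ i < r, bform M p i v = 0) (hbr : bform M p r v = 0 ∨ bform M p r v = 1) :
    IsIn M v := by
  classical
  obtain ⟨n, hind, hrel, hnN⟩ := exists_level (M := M) p v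
  have htr : ∀ i : ℕ, Algebra.trace M L (v ^ p ^ i) = 0 := by
    intro i
    rw [trace_pow_char p i v, h0, zero_pow]
    exact pow_ne_zero _ (Fact.out : p.Prime).ne_zero
  obtain ⟨e, c, hec⟩ := hrel
  set G : Matrix (Fin n) (Fin n) M :=
    fun a b => Algebra.trace M L (v ^ p ^ (a : ℕ) * v ^ p ^ (b : ℕ)) with hGdef
  have hGapp : ∀ a b, G a b = Algebra.trace M L (v ^ p ^ (a : ℕ) * v ^ p ^ (b : ℕ)) :=
    fun _ _ => rfl
  clear_value G
  have hrel' : InW M p n v (v ^ p ^ n) := ⟨e, c, hec⟩
  by_cases hdet : G.det = 0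
  · -- (3b)
    obtain ⟨z, hz0, hz⟩ := Matrix.exists_mulVec_eq_zero_iff.2 hdet
    exfalso
    set zz : L := ∑ a, algebraMap M L (z a) * v ^ p ^ (a : ℕ) with hzz
    have hzW : InW M p n v zz := ⟨0, z, by simp [hzz]⟩
    have ht1 : Algebra.trace M L zz = 0 := by
      rw [hzz, map_sum]
      refine Finset.sum_eq_zero fun a _ => ?_
      rw [← Algebra.smul_def, map_smul, htr, smul_zero]
    have ht2 : ∀ b : Fin n, Algebra.trace M L (zz * v ^ p ^ (b : ℕ)) = 0 := by
      intro b
      have := congrFun hz b
      simp only [Matrix.mulVec, dotProduct, Pi.zero_apply, hGapp] at this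
      rw [hzz, Finset.sum_mul, map_sum, ← this]
      refine Finset.sum_congr rfl fun a _ => ?_
      rw [mul_assoc, ← Algebra.smul_def, map_smul, smul_eq_mul, mul_comm (z a),
        mul_comm (v ^ p ^ (a : ℕ))]
    have hb0 : ∀ i, bform M p i zz = 0 := by
      intro i
      unfold bform
      rw [pow_add, pow_one]
      exact trace_mul_eq_zero ht1 ht2 (InW.frob_pow hrel' hzW i)
    obtain ⟨m, hm⟩ := isIn_of_isotropic2 p h hr hN zz hb0
    apply hz0
    have h2 := Fintype.linearIndependent_iff.1 hind
      (fun o => match o with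
        | none => m
        | some a => -(z a)) (by
          rw [Fintype.sum_option]
          simp only [frobFam, Algebra.smul_def, map_neg, neg_mul, Finset.sum_neg_distrib,
            mul_one]
          rw [← hzz, hm]
          ring)
    ext a
    have := h2 (some a)
    simpa using this
  · -- (3a)
    have hmulVec : G.mulVec c =
        fun b : Fin n => Algebra.trace M L (v ^ p ^ n * v ^ p ^ (b : ℕ)) := by
      ext b
      simp only [Matrix.mulVec, dotProduct, hGapp]
      rw [hec, add_mul, map_add, Finset.sum_mul, map_sum, ← Algebra.smul_def, map_smul, htr,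
        smul_zero, zero_add]
      refine Finset.sum_congr rfl fun a _ => ?_
      rw [mul_assoc, ← Algebra.smul_def, map_smul, smul_eq_mul, mul_comm (c a),
        mul_comm (v ^ p ^ (a : ℕ))]
    -- membership of the `b_i` and of the traces
    have hbF : ∀ (m : ℕ) (F : Subfield M), (∀ i ∈ Finset.Icc (r + 1) m, bform M p i v ∈ F) →
        ∀ i ≤ m, bform M p i v ∈ F := by
      intro m F hF i hi
      rcases lt_trichotomy i r with hlt | heq | hgt
      · rw [hb i hlt]; exact F.zero_mem
      · rw [heq]
        rcases hbr with h1 | h1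
        · rw [h1]; exact F.zero_mem
        · rw [h1]; exact F.one_mem
      · exact hF i (Finset.mem_Icc.2 ⟨hgt, hi⟩)
    have hpair : ∀ (m : ℕ) (F : Subfield M),
        (∀ i ∈ Finset.Icc (r + 1) m, bform M p i v ∈ F) →
        ∀ a b : ℕ, max a b - min a b ≤ m →
          Algebra.trace M L (v ^ p ^ a * v ^ p ^ b) ∈ F := by
      intro m F hF a b hab
      rw [trace_mul_pow p a b v]
      exact pow_mem (hbF m F hF _ hab) _
    rcases Nat.lt_or_ge (2 * r) n with hgt | hle
    · -- `n = 2 r + 1`
      have hn : n = 2 * r + 1 := by omega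
      subst hn
      have hcar : (Module.finrank M L : M) ≠ 0 := by
        intro hcar
        have hker : 2 * r + 1 + 1 ≤ Module.finrank M (LinearMap.ker (Algebra.trace M L)) := by
          have hmem : ∀ o, frobFam p (2 * r + 1) v o ∈ LinearMap.ker (Algebra.trace M L) := by
            intro o
            rw [LinearMap.mem_ker]
            rcases o with _ | a
            · have : (1 : L) = algebraMap M L 1 := (map_one _).symm
              simp only [frobFam]
              rw [this, Algebra.trace_algebraMap, nsmul_eq_mul, hcar, zero_mul]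
            · exact htr _
          have hli : LinearIndependent M (fun o =>
              (⟨frobFam p (2 * r + 1) v o, hmem o⟩ : LinearMap.ker (Algebra.trace M L))) := by
            refine LinearIndependent.of_comp (LinearMap.ker (Algebra.trace M L)).subtype ?_
            exact hind
          have := hli.fintype_card_le_finrank
          simpa using this
        have hrank := LinearMap.finrank_range_add_finrank_ker (Algebra.trace M L)
        have hsurj : Module.finrank M (LinearMap.range (Algebra.trace M L)) = 1 := by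
          rw [LinearMap.range_eq_top.2 (Algebra.trace_surjective M L)]
          simp
        omega
      have he : e = 0 := by
        have := congrArg (Algebra.trace M L) hec
        rw [htr, map_add, Algebra.trace_algebraMap, map_sum] at this
        rw [Finset.sum_eq_zero, add_zero, nsmul_eq_mul] at this
        · rcases mul_eq_zero.1 this.symm with h1 | h1
          · exact absurd h1 hcar
          · exact h1
        · intro a _
          rw [← Algebra.smul_def, map_smul, htr, smul_zero]
      have hbr1 : bform M p r v ≠ 0 := by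
        intro hbr0
        apply hdet
        refine Matrix.det_eq_zero_of_row_eq_zero (⟨r, by omega⟩ : Fin (2 * r + 1)) ?_
        intro b
        simp only [hGapp]
        rw [trace_mul_pow p r (b : ℕ) v]
        have hle : max r (b : ℕ) - min r (b : ℕ) ≤ r := by
          have := b.2
          omega
        have hz : bform M p (max r (b : ℕ) - min r (b : ℕ)) v = 0 := by
          rcases Nat.lt_or_ge (max r (b : ℕ) - min r (b : ℕ)) r with h1 | h1
          · exact hb _ h1
          · rw [le_antisymm hle h1]; exact hbr0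
        rw [hz, zero_pow]
        exact pow_ne_zero _ (Fact.out : p.Prime).ne_zero
      obtain ⟨F, hF, hmem⟩ := exists_sub_finset h (Finset.Icc (r + 1) (2 * r))
        (by rw [Nat.card_Icc]; omega) (fun i => bform M p i v)
      have hGF : ∀ a b, G a b ∈ F := by
        intro a b
        rw [hGapp]
        refine hpair (2 * r) F hmem _ _ ?_
        have := a.2
        have := b.2
        omega
      have hunit : IsUnit G.det := isUnit_iff_ne_zero.2 hdet
      have hcor : G⁻¹ 0 0 ≠ 0 := by
        have := inv_corner_ne_zero p h hr v hb hbr1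
          (fun a => if ha : a < 2 * r + 1 then G⁻¹ 0 ⟨a, ha⟩ else 0) (by
            intro b hb'
            rw [Finset.sum_range]
            have h1 := congrFun (congrFun (Matrix.nonsing_inv_mul G hunit) 0) ⟨b, hb'⟩
            rw [Matrix.mul_apply, Matrix.one_apply] at h1
            simp only [hGapp] at h1
            have h2 : ((0 : Fin (2 * r + 1)) = ⟨b, hb'⟩) ↔ b = 0 := by
              rw [Fin.ext_iff]
              simp only [Fin.val_zero]
              exact eq_comm
            simp only [h2] at h1
            rw [← h1]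
            refine Finset.sum_congr rfl fun a _ => ?_
            simp only [a.2, dif_pos, Fin.eta])
        simpa using this
      have ht : ∀ a : Fin (2 * r),
          Algebra.trace M L (v ^ p ^ (2 * r + 1) * v ^ p ^ ((a.succ : Fin (2 * r + 1)) : ℕ)) ∈ F := by
        intro a
        refine hpair (2 * r) F hmem _ _ ?_
        have := a.2
        rw [Fin.val_succ]
        omega
      have h00 : ∑ a : Fin (2 * r + 1),
          Algebra.trace M L (v ^ p ^ (2 * r + 1) * v ^ p ^ (a : ℕ)) * c a = 0 := by
        have h1 : Algebra.trace M L (v ^ p ^ (2 * r + 1) * v ^ p ^ (2 * r + 1)) = 0 := by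
          rw [trace_mul_pow, max_self, min_self, Nat.sub_self, hb 0 hr, zero_pow]
          exact pow_ne_zero _ (Fact.out : p.Prime).ne_zero
        have h2 : ∀ w : L, Algebra.trace M L (w * v ^ p ^ (2 * r + 1)) =
            ∑ a : Fin (2 * r + 1), Algebra.trace M L (w * v ^ p ^ (a : ℕ)) * c a := by
          intro w
          rw [hec, he, map_zero, zero_add, Finset.mul_sum, map_sum]
          refine Finset.sum_congr rfl fun a _ => ?_
          have e3 : w * (algebraMap M L (c a) * v ^ p ^ (a : ℕ)) =
              c a • (w * v ^ p ^ (a : ℕ)) := by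
            rw [Algebra.smul_def]; ring
          rw [e3, map_smul, smul_eq_mul, mul_comm]
        rw [← h2, h1]
      have hd0 := corner_mem F hF G hdet hGF hcor c _ hmulVec ht h00
      have hcF : ∀ a, c a ∈ F := by
        refine coeff_mem F G hdet hGF _ ?_ c hmulVec
        intro b
        induction b using Fin.cases with
        | zero => exact hd0
        | succ b => exact ht b
      exact isIn_of_rel h hr p F hF (2 * r + 1) c hcF e v hec
    · -- `n ≤ 2 r`
      obtain ⟨F, hF, hmem⟩ := exists_sub_finset h (Finset.Icc (r + 1) n)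
        (by rw [Nat.card_Icc]; omega) (fun i => bform M p i v)
      have hcF : ∀ a, c a ∈ F := by
        refine coeff_mem F G hdet (fun a b => by rw [hGapp]; exact hpair n F hmem _ _ (by omega)) _
          (fun b => hpair n F hmem _ _ ?_) c hmulVec
        have := b.2
        omega
      exact isIn_of_rel h hr p F hF n c hcF e v hec

/-- BFIN2: item (3) of the proof of Theorem B for `[L : M] ≤ 2 r + 2`. -/
theorem bfinal2 {M L : Type*} [Field M] [Field L] [Algebra M L]
    [FiniteDimensional M L] [Algebra.IsSeparable M L] (p : ℕ) [Fact p.Prime] [CharP M p]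
    [CharP L p] {r : ℕ} (h : AlgSub M r) (hr : 1 ≤ r)
    (hN : Module.finrank M L ≤ 2 * r + 2) (v : L) (h0 : Algebra.trace M L v = 0)
    (hb : ∀ i < r, bform M p i v = 0) : IsIn M v := by
  by_cases hbr : bform M p r v = 0
  · exact bfinal_core p h hr hN v h0 hb (Or.inl hbr)
  · obtain ⟨l, hl⟩ := exists_root_pow h hr (1 + p ^ r) (by positivity) (bform M p r v)⁻¹
    have hl0 : l ≠ 0 := by
      rintro rfl
      rw [zero_pow (by positivity)] at hl
      exact (inv_ne_zero hbr) hl.symm
    refine isIn_of_smul l hl0 v (bfinal_core p h hr hN _ ?_ ?_ ?_)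
    · rw [← Algebra.smul_def, map_smul, h0, smul_zero]
    · intro i hi
      rw [bform_smul, hb i hi, mul_zero]
    · right
      rw [bform_smul, hl, inv_mul_cancel₀ hbr]

end Pool.Agent.RD
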