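import Pool.Agent.Lib.RD.Tr

/-!
MP_0db6a9_al, module BForm (paper: team-store MP_0db6a9_al_paper.md).
`(∑_a x_a v^(p^a))^(1 + p^i) = ∑_(a,c) x_a x_c^(p^i) v^(p^a) v^(p^(i+c))` (add_pow_char_pow / sum_pow_char_pow), and
trace_mul_pow: the trace of `v^(p^a) v^(p^(i+c))` is a power of some `b_j(v)`, `j = |a - i - c| ≤ i + m`.
`g = ∑_(a,c) C(..) * X_a * X_c^(p^i)`.
-/

namespace Pool.Agent.RD

open Polynomial

/-- BSTEP0: `b_i(∑ x_a v^(p^a))` as a homogeneous polynomial in `x`. -/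
theorem bstep_form {M L : Type*} [Field M] [Field L] [Algebra M L] [FiniteDimensional M L]
    [Algebra.IsSeparable M L] (p : ℕ) [Fact p.Prime] [CharP M p] [CharP L p]
    (F : Subfield M) (m i : ℕ) (v : L)
    (hF : ∀ j ≤ i + m, bform M p j v ∈ F) :
    ∃ g : MvPolynomial (Fin (m + 1)) F, g.IsHomogeneous (1 + p ^ i) ∧
      ∀ x : Fin (m + 1) → F,
        ((MvPolynomial.eval x g : F) : M) =
          bform M p i (∑ a, algebraMap M L (x a : M) * v ^ p ^ (a : ℕ)) := by
  have : ExpChar L p := ExpChar.prime Fact.out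
  have hmem : ∀ a c : Fin (m + 1),
      Algebra.trace M L (v ^ p ^ (a : ℕ) * v ^ p ^ ((c : ℕ) + i)) ∈ F := by
    intro a c
    rw [trace_mul_pow]
    refine pow_mem (hF _ ?_) _
    have ha := a.isLt
    have hc := c.isLt
    omega
  refine ⟨∑ a : Fin (m + 1), ∑ c : Fin (m + 1),
    MvPolynomial.C (⟨Algebra.trace M L (v ^ p ^ (a : ℕ) * v ^ p ^ ((c : ℕ) + i)), hmem a c⟩ : F) *
      (MvPolynomial.X a * MvPolynomial.X c ^ p ^ i), ?_, ?_⟩
  · refine MvPolynomial.IsHomogeneous.sum _ _ _ fun a _ =>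
      MvPolynomial.IsHomogeneous.sum _ _ _ fun c _ => ?_
    have h1 : (MvPolynomial.X a * MvPolynomial.X c ^ p ^ i :
        MvPolynomial (Fin (m + 1)) F).IsHomogeneous (1 + 1 * p ^ i) :=
      (MvPolynomial.isHomogeneous_X _ _).mul ((MvPolynomial.isHomogeneous_X _ _).pow _)
    have h2 := (MvPolynomial.isHomogeneous_C (Fin (m + 1))
      (⟨Algebra.trace M L (v ^ p ^ (a : ℕ) * v ^ p ^ ((c : ℕ) + i)), hmem a c⟩ : F)).mul h1
    simpa using h2
  · intro x
    have h1 : (∑ a, algebraMap M L (x a : M) * v ^ p ^ (a : ℕ)) ^ (1 + p ^ i)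
        = ∑ a : Fin (m + 1), ∑ c : Fin (m + 1),
            (((x a : F) : M) * ((x c : F) : M) ^ p ^ i) •
              (v ^ p ^ (a : ℕ) * v ^ p ^ ((c : ℕ) + i)) := by
      rw [pow_add, pow_one, sum_pow_char_pow, Finset.sum_mul_sum]
      refine Finset.sum_congr rfl fun a _ => Finset.sum_congr rfl fun c _ => ?_
      rw [mul_pow, ← pow_mul v, ← pow_add p, Algebra.smul_def, map_mul, map_pow]
      ring
    unfold bform
    rw [h1, map_sum, map_sum]
    simp only [map_sum, map_mul, MvPolynomial.eval_C, map_pow, MvPolynomial.eval_X, map_smul,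
      smul_eq_mul]
    push_cast
    refine Finset.sum_congr rfl fun a _ => Finset.sum_congr rfl fun c _ => ?_
    rw [mul_comm]

end Pool.Agent.RD
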