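import Pool.Agent.Lib.RD.Tr
import Pool.Agent.Lib.RD.BDep

/-!
MP_0db6a9_al, module BIso (paper: team-store MP_0db6a9_al_paper.md).
By trace_mul_pow all products `v^(p^a) v^(p^c)` (`v = z`) have trace 0, so the span of the `z^(p^a)`, `a < r + 1`, is
totally isotropic for the trace form, which is nondegenerate (`traceForm_nondegenerate`); a totally isotropic subspace has
dimension at most `N / 2 ≤ r`. If `z` were outside `M`, the `r + 1` elements `z^(p^a)`, `a ≤ r`, would be independent
(linearIndependent_frobFam with `m = r + 1`), contradiction.
-/

namespace Pool.Agent.RD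

open Polynomial

/-- BISO: an element all of whose `b_i` vanish lies in `M` if `[L : M] ≤ 2 r + 1`. -/
theorem isIn_of_isotropic {M L : Type*} [Field M] [Field L] [Algebra M L]
    [FiniteDimensional M L] [Algebra.IsSeparable M L] (p : ℕ) [Fact p.Prime] [CharP M p]
    {r : ℕ} (h : AlgSub M r) (hr : 1 ≤ r) (hN : Module.finrank M L ≤ 2 * r + 1) (z : L)
    (hz : ∀ i, bform M p i z = 0) : IsIn M z := by
  by_contra hin
  have hli := linearIndependent_frobFam h hr p z hin (r + 1) le_rfl
  have hli2 : LinearIndependent M (fun i : Fin (r + 1) => z ^ p ^ (i : ℕ)) :=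
    hli.comp some (Option.some_injective _)
  set W : Submodule M L := Submodule.span M (Set.range (fun i : Fin (r + 1) => z ^ p ^ (i : ℕ)))
    with hW
  have hdim : Module.finrank M W = r + 1 := by
    rw [hW, finrank_span_eq_card hli2, Fintype.card_fin]
  have hiso : W ≤ (Algebra.traceForm M L).orthogonal W := by
    have key : ∀ x ∈ W, ∀ y ∈ W, Algebra.trace M L (y * x) = 0 := by
      intro x hx y hy
      induction hx using Submodule.span_induction with
      | mem x hx =>
        obtain ⟨a, rfl⟩ := hx
        induction hy using Submodule.span_induction with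
        | mem y hy =>
          obtain ⟨c, rfl⟩ := hy
          simp only
          rw [trace_mul_pow, hz, zero_pow (pow_ne_zero _ (Fact.out : p.Prime).ne_zero)]
        | zero => simp
        | add y y' _ _ h1 h2 => rw [add_mul, map_add, h1, h2, add_zero]
        | smul m y _ h1 => rw [smul_mul_assoc, map_smul, h1, smul_zero]
      | zero => simp
      | add x x' _ _ h1 h2 => rw [mul_add, map_add, h1, h2, add_zero]
      | smul m x _ h1 => rw [mul_smul_comm, map_smul, h1, smul_zero]
    intro x hx
    rw [LinearMap.BilinForm.mem_orthogonal_iff]
    intro y hy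
    exact key x hx y hy
  have h1 := LinearMap.BilinForm.finrank_orthogonal (traceForm_nondegenerate M L) W
  have h2 := Submodule.finrank_mono hiso
  have h3 := Submodule.finrank_le W
  omega

end Pool.Agent.RD
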