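import Pool.Agent.Lib.RD.Tr
import Pool.Agent.Lib.RD.BDep

/-!
MP_0db6a9_al, module BIso2 (paper: team-store MP_0db6a9_al_paper.md).
By trace_mul_pow all products `z^(p^a) z^(p^c)` have trace 0, so the span of the `z^(p^a)`, `a ≤ r + 1`, is
totally isotropic for the trace form, which is nondegenerate; so its dimension is at most `N / 2 ≤ r + 1`, and the `r + 2`
elements `z^(p^a)`, `a ≤ r + 1`, are dependent. Take the least `w` with `z^(p^w)` in the span of the `z^(p^i)`, `i < w`: then
`w ≤ r + 1` and isIn_of_relation applies with `N = p^w`, `S = {p^i : i < w}` (`w ≤ r + 1` elements, no constant term).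
-/

namespace Pool.Agent.RD

open Polynomial

private theorem exists_mem_span_of_not_li {M L : Type*} [Field M] [Field L] [Algebra M L]
    (f : ℕ → L) (n : ℕ) (hn : ¬ LinearIndependent M (fun i : Fin n => f i)) :
    ∃ w < n, f w ∈ Submodule.span M (Set.range (fun i : Fin w => f i)) := by
  induction n with
  | zero => exact absurd (linearIndependent_empty_type) hn
  | succ n ih =>
    rw [linearIndependent_finSucc'] at hn
    by_cases h1 : LinearIndependent M (fun i : Fin n => f i)
    · have h2 : f n ∈ Submodule.span M (Set.range (fun i : Fin n => f i)) := by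
        by_contra h3
        exact hn ⟨h1, h3⟩
      exact ⟨n, Nat.lt_succ_self n, h2⟩
    · obtain ⟨w, hw, h⟩ := ih h1
      exact ⟨w, hw.trans (Nat.lt_succ_self n), h⟩

/-- BISO2: an element all of whose `b_i` vanish lies in `M` if `[L : M] ≤ 2 r + 2`. -/
theorem isIn_of_isotropic2 {M L : Type*} [Field M] [Field L] [Algebra M L]
    [FiniteDimensional M L] [Algebra.IsSeparable M L] (p : ℕ) [Fact p.Prime] [CharP M p]
    {r : ℕ} (h : AlgSub M r) (hr : 1 ≤ r) (hN : Module.finrank M L ≤ 2 * r + 2) (z : L)
    (hz : ∀ i, bform M p i z = 0) : IsIn M z := by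
  have hp : p.Prime := Fact.out
  have hp1 : 1 < p := hp.one_lt
  have hinj : Function.Injective (fun i : ℕ => p ^ i) := Nat.pow_right_injective hp1
  have hdep : ¬ LinearIndependent M (fun i : Fin (r + 2) => z ^ p ^ (i : ℕ)) := by
    intro hli2
    set W : Submodule M L := Submodule.span M (Set.range (fun i : Fin (r + 2) => z ^ p ^ (i : ℕ)))
      with hW
    have hdim : Module.finrank M W = r + 2 := by
      rw [hW, finrank_span_eq_card hli2, Fintype.card_fin]
    have hiso : W ≤ (Algebra.traceForm M L).orthogonal W := by
      have key : ∀ x ∈ W, ∀ y ∈ W, Algebra.trace M L (y * x) = 0 := by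
        intro x hx y hy
        induction hx using Submodule.span_induction with
        | mem x hx =>
          obtain ⟨a, rfl⟩ := hx
          induction hy using Submodule.span_induction with
          | mem y hy =>
            obtain ⟨c, rfl⟩ := hy
            simp only
            rw [trace_mul_pow, hz, zero_pow (pow_ne_zero _ hp.ne_zero)]
          | zero => simp
          | add y y' _ _ h1 h2 => rw [add_mul, map_add, h1, h2, add_zero]
          | smul m y _ h1 => rw [smul_mul_assoc, map_smul, h1, smul_zero]
        | zero => simp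
        | add x x' _ _ h1 h2 => rw [mul_add, map_add, h1, h2, add_zero]
        | smul m x _ h1 => rw [mul_smul_comm, map_smul, h1, smul_zero]
      intro x hx
      rw [LinearMap.BilinForm.mem_orthogonal_iff]
      intro y hy
      exact key x hx y hy
    have h1 := LinearMap.BilinForm.finrank_orthogonal (traceForm_nondegenerate M L) W
    have h2 := Submodule.finrank_mono hiso
    have h3 := Submodule.finrank_le W
    omega
  obtain ⟨w, hw, hmem⟩ := exists_mem_span_of_not_li (fun i : ℕ => z ^ p ^ i) (r + 2) hdep
  rw [Submodule.mem_span_range_iff_exists_fun] at hmem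
  obtain ⟨g, hg⟩ := hmem
  refine isIn_of_relation h hr (p ^ w) ((Finset.range w).image (fun i : ℕ => p ^ i))
    ?_ ?_ (fun j => if hj : Nat.log p j < w then g ⟨Nat.log p j, hj⟩ else 0) z ?_
  · intro j hj
    obtain ⟨i, hi, rfl⟩ := Finset.mem_image.1 hj
    exact Nat.pow_lt_pow_right hp1 (Finset.mem_range.1 hi)
  · rw [Finset.card_image_of_injective _ hinj, Finset.card_range]
    omega
  · rw [Finset.sum_image (fun a _ b _ hab => hinj hab)]
    simp only [Nat.log_pow hp1]
    rw [Finset.sum_range, ← hg]
    refine Finset.sum_congr rfl fun i _ => ?_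
    rw [dif_pos i.2, Algebra.smul_def]

end Pool.Agent.RD
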