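import Pool.Agent.Lib.RD.BStep
import Pool.Agent.Lib.RD.BFin

/-!
MP_0db6a9_al, module BMain (paper: team-store MP_0db6a9_al_paper.md).
`M` is perfect (exists_root_pow with `m = p`), so `L/M` is separable. If `N ≤ r + 1` use isIn_of_natDegree_le.
Otherwise `N ≥ r + 2 ≥ 3` and the kernel of the trace has dimension `N - 1 ≥ 2`, so it contains an element outside `M`;
iterate bstep to get an element `v` outside `M` with trace 0 and `b_i(v) = 0` for `i < r`; bfinal.
-/

namespace Pool.Agent.RD

open Polynomial

/-- BMAIN: Theorem B for fields with `AlgSub`. -/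
theorem bmain {M L : Type*} [Field M] [Field L] [Algebra M L] [FiniteDimensional M L]
    (p : ℕ) [Fact p.Prime] [CharP M p] {r : ℕ} (h : AlgSub M r) (hr : 1 ≤ r)
    (hN : Module.finrank M L ≤ 2 * r + 1) (v : L) : IsIn M v := by
  have hp : p.Prime := Fact.out
  have : CharP L p := charP_of_injective_algebraMap (algebraMap M L).injective p
  have : ExpChar M p := ExpChar.prime hp
  have : PerfectRing M p := PerfectRing.ofSurjective M p
    (fun a => by
      obtain ⟨b, hb⟩ := exists_root_pow h hr p hp.pos a
      exact ⟨b, by rw [frobenius_def]; exact hb⟩)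
  have : PerfectField M := PerfectRing.toPerfectField M p
  have : Algebra.IsSeparable M L := inferInstance
  by_contra hv
  have hN2 : r + 2 ≤ Module.finrank M L := by
    by_contra hlt
    apply hv
    apply isIn_of_natDegree_le h hr v
    have := minpoly.natDegree_le (A := M) v
    omega
  obtain ⟨w, hw, hw0⟩ : ∃ w : L, ¬ IsIn M w ∧ Algebra.trace M L w = 0 := by
    by_contra hcon
    have hle : LinearMap.ker (Algebra.trace M L) ≤ Submodule.span M {(1 : L)} := by
      intro w hw
      rw [LinearMap.mem_ker] at hw
      have hin : IsIn M w := by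
        by_contra hni
        exact hcon ⟨w, hni, hw⟩
      obtain ⟨a, rfl⟩ := hin
      rw [Submodule.mem_span_singleton]
      exact ⟨a, by rw [Algebra.smul_def, mul_one]⟩
    have h1 := LinearMap.finrank_range_add_finrank_ker (Algebra.trace M L)
    have h2 : Module.finrank M (LinearMap.range (Algebra.trace M L)) ≤ 1 := by
      have := Submodule.finrank_le (LinearMap.range (Algebra.trace M L))
      rwa [Module.finrank_self] at this
    have h3 : Module.finrank M (LinearMap.ker (Algebra.trace M L)) ≤ 1 := by
      refine (Submodule.finrank_mono hle).trans ?_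
      rw [finrank_span_singleton (one_ne_zero : (1 : L) ≠ 0)]
    omega
  have key : ∀ j ≤ r, ∃ u : L, ¬ IsIn M u ∧ Algebra.trace M L u = 0 ∧
      ∀ i < j, bform M p i u = 0 := by
    intro j
    induction j with
    | zero => intro _; exact ⟨w, hw, hw0, fun i hi => absurd hi (Nat.not_lt_zero i)⟩
    | succ j ih =>
      intro hj
      obtain ⟨u, hu, hu0, hub⟩ := ih (by omega)
      exact bstep p h hr (by omega) u hu hu0 hub
  obtain ⟨u, hu, hu0, hub⟩ := key r le_rfl
  exact hu (bfinal p h hr hN u hu0 hub)

end Pool.Agent.RD
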