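import Pool.Agent.Lib.RD.BStep
import Pool.Agent.Lib.RD.BFin2

/-!
MP_0db6a9_al, module BMain2 (paper: team-store MP_0db6a9_al_paper.md).
As BMain (same proof with bfinal2).
-/

namespace Pool.Agent.RD

open Polynomial

/-- an element of trace zero outside `M` -/
private theorem exists_trace_zero {M L : Type*} [Field M] [Field L] [Algebra M L]
    [FiniteDimensional M L] (hN : 3 ≤ Module.finrank M L) :
    ∃ u : L, ¬ IsIn M u ∧ Algebra.trace M L u = 0 := by
  by_contra hcon
  push Not at hcon
  have h1 : LinearMap.ker (Algebra.trace M L) ≤ LinearMap.range (Algebra.linearMap M L) := by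
    intro u hu
    have hu' : Algebra.trace M L u = 0 := hu
    by_contra h2
    exact hcon u (fun h3 => h2 h3) hu'
  have h2 := Submodule.finrank_mono h1
  have h3 := LinearMap.finrank_range_add_finrank_ker (Algebra.trace M L)
  have h4 : Module.finrank M (LinearMap.range (Algebra.trace M L)) ≤ 1 := by
    have h5 := Submodule.finrank_le (LinearMap.range (Algebra.trace M L))
    rwa [Module.finrank_self] at h5
  have h6 : Module.finrank M (LinearMap.range (Algebra.linearMap M L)) ≤ 1 := by
    have h7 := LinearMap.finrank_range_le (Algebra.linearMap M L)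
    rwa [Module.finrank_self] at h7
  omega

/-- BMAIN2: Theorem B with the bound `2 r + 2` for fields with `AlgSub`. -/
theorem bmain2 {M L : Type*} [Field M] [Field L] [Algebra M L] [FiniteDimensional M L]
    (p : ℕ) [Fact p.Prime] [CharP M p] {r : ℕ} (h : AlgSub M r) (hr : 1 ≤ r)
    (hN : Module.finrank M L ≤ 2 * r + 2) (v : L) : IsIn M v := by
  have hp : 0 < p := (Fact.out : p.Prime).pos
  have hcL : CharP L p := charP_of_injective_algebraMap (algebraMap M L).injective p
  have hE : ExpChar M p := ExpChar.prime Fact.out
  have hperf : PerfectRing M p := PerfectRing.ofSurjective M p fun a => by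
    obtain ⟨b, hb⟩ := exists_root_pow h hr p hp a
    exact ⟨b, hb⟩
  have hpf : PerfectField M := PerfectRing.toPerfectField M p
  have hsep : Algebra.IsSeparable M L := inferInstance
  by_cases hsmall : Module.finrank M L ≤ r + 1
  · exact isIn_of_natDegree_le h hr v ((minpoly.natDegree_le v).trans hsmall)
  · obtain ⟨u, hu, hu0⟩ := exists_trace_zero (M := M) (L := L) (by omega)
    have key : ∀ j ≤ r, ∃ u : L, ¬ IsIn M u ∧ Algebra.trace M L u = 0 ∧
        ∀ i < j, bform M p i u = 0 := by
      intro j
      induction j with
      | zero => exact fun _ => ⟨u, hu, hu0, fun i hi => absurd hi (Nat.not_lt_zero i)⟩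
      | succ j ih =>
        intro hj
        obtain ⟨w, hw, hw0, hwb⟩ := ih (by omega)
        exact bstep p h hr (by omega) w hw hw0 hwb
    obtain ⟨w, hw, hw0, hwb⟩ := key r le_rfl
    exact absurd (bfinal2 p h hr hN w hw0 hwb) hw

end Pool.Agent.RD
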