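import Pool.Agent.Lib.RD.BDep
import Pool.Agent.Lib.RD.Krull
import Pool.Agent.Lib.RD.BForm

/-!
MP_0db6a9_al, module BStep (paper: team-store MP_0db6a9_al_paper.md).
Step (2) of Theorem B. If `b_j(v) = 0` take `u = v`. Otherwise scale by `l`, `l^(1+p^j) = 1 / b_j(v)`
(`b_i(l v) = l^(1+p^i) b_i(v)`), so `b_j(v) = 1`. The `b_i(v)`, `j + 1 ≤ i ≤ 2 j + 1`, are `j + 1 ≤ r` elements of an
algebraically closed subfield `F`; bstep_form with `m = j + 1`, `i = 0, ..., j` (indices at most `2 j + 1`) and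
exists_common_zero with `s = j + 1` give `x ≠ 0`; `u = ∑ x_a v^(p^a)` has trace 0 (trace_pow_char) and is not in `M` by
linearIndependent_frobFam (`m = j + 2 ≤ r + 1`).
-/

namespace Pool.Agent.RD

open Polynomial

/-- `b_i(l v) = l^(1+p^i) b_i(v)` -/
private theorem bform_smul {M L : Type*} [Field M] [Field L] [Algebra M L] (p i : ℕ) (l : M)
    (v : L) : bform M p i (algebraMap M L l * v) = l ^ (1 + p ^ i) * bform M p i v := by
  unfold bform
  rw [mul_pow, ← map_pow, ← Algebra.smul_def, map_smul, smul_eq_mul]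

/-- the step when `b_j(v) = 1` -/
private theorem bstep_one {M L : Type*} [Field M] [Field L] [Algebra M L] [FiniteDimensional M L]
    [Algebra.IsSeparable M L] (p : ℕ) [Fact p.Prime] [CharP M p] [CharP L p] {r : ℕ}
    (h : AlgSub M r) (hr : 1 ≤ r) {j : ℕ} (hj : j < r) (v : L) (hv : ¬ IsIn M v)
    (h0 : Algebra.trace M L v = 0) (hb : ∀ i < j, bform M p i v = 0) (hj1 : bform M p j v = 1) :
    ∃ u : L, ¬ IsIn M u ∧ Algebra.trace M L u = 0 ∧ ∀ i < j + 1, bform M p i u = 0 := by
  obtain ⟨F, hF, hmem⟩ := exists_sub_finset h (Finset.Ico (j + 1) (2 * j + 2)) (by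
    rw [Nat.card_Ico]
    omega) (fun i => bform M p i v)
  have hall : ∀ i ≤ 2 * j + 1, bform M p i v ∈ F := by
    intro i hi
    rcases lt_trichotomy i j with h1 | h1 | h1
    · rw [hb i h1]
      exact F.zero_mem
    · rw [h1, hj1]
      exact F.one_mem
    · exact hmem i (Finset.mem_Ico.2 ⟨by omega, by omega⟩)
  have hform : ∀ i : Fin (j + 1), ∃ g : MvPolynomial (Fin (j + 1 + 1)) F,
      g.IsHomogeneous (1 + p ^ (i : ℕ)) ∧ ∀ x : Fin (j + 1 + 1) → F,
        ((MvPolynomial.eval x g : F) : M) =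
          bform M p i (∑ a, algebraMap M L (x a : M) * v ^ p ^ (a : ℕ)) := fun i =>
    bstep_form p F (j + 1) i v fun k hk => hall k (by have := i.2; omega)
  choose g hg1 hg2 using hform
  obtain ⟨x, hx0, hx⟩ := exists_common_zero (F := F) g (fun i => 1 + p ^ (i : ℕ))
    (fun i => by positivity) hg1
  refine ⟨∑ a, algebraMap M L (x a : M) * v ^ p ^ (a : ℕ), ?_, ?_, ?_⟩
  · rintro ⟨m, hm⟩
    have hli := linearIndependent_frobFam h hr p v hv (j + 2) (by omega)
    rw [Fintype.linearIndependent_iff] at hli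
    have h1 := hli (fun o => Option.elim o (-m) fun a => (x a : M)) (by
      rw [Fintype.sum_option]
      simp only [Option.elim_none, Option.elim_some, frobFam, Algebra.smul_def, mul_one, map_neg]
      rw [hm]
      ring)
    apply hx0
    funext a
    have h2 := h1 (some a)
    simp only [Option.elim_some] at h2
    exact Subtype.ext h2
  · rw [map_sum]
    refine Finset.sum_eq_zero fun a _ => ?_
    rw [← Algebra.smul_def, map_smul, trace_pow_char p, h0, zero_pow (by
      have := (Fact.out : p.Prime).pos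
      positivity), smul_zero]
  · intro i hi
    have h1 := hg2 ⟨i, hi⟩ x
    rw [hx ⟨i, hi⟩] at h1
    exact h1.symm

/-- BSTEP: step (2) of the proof of Theorem B. -/
theorem bstep {M L : Type*} [Field M] [Field L] [Algebra M L] [FiniteDimensional M L]
    [Algebra.IsSeparable M L] (p : ℕ) [Fact p.Prime] [CharP M p] [CharP L p] {r : ℕ}
    (h : AlgSub M r) (hr : 1 ≤ r) {j : ℕ} (hj : j < r) (v : L) (hv : ¬ IsIn M v)
    (h0 : Algebra.trace M L v = 0) (hb : ∀ i < j, bform M p i v = 0) :
    ∃ u : L, ¬ IsIn M u ∧ Algebra.trace M L u = 0 ∧ ∀ i < j + 1, bform M p i u = 0 := by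
  by_cases hbj : bform M p j v = 0
  · refine ⟨v, hv, h0, fun i hi => ?_⟩
    rcases Nat.lt_or_ge i j with h1 | h1
    · exact hb i h1
    · rw [show i = j by omega]
      exact hbj
  · obtain ⟨l, hl⟩ := exists_root_pow h hr (1 + p ^ j) (by positivity) (bform M p j v)⁻¹
    have hl0 : l ≠ 0 := by
      rintro rfl
      rw [zero_pow (by positivity)] at hl
      exact hbj (inv_eq_zero.1 hl.symm)
    refine bstep_one p h hr hj (algebraMap M L l * v) (fun h1 => hv (isIn_of_smul l hl0 v h1)) ?_
      (fun i hi => ?_) ?_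
    · rw [← Algebra.smul_def, map_smul, h0, smul_zero]
    · rw [bform_smul, hb i hi, mul_zero]
    · rw [bform_smul, hl, inv_mul_cancel₀ hbj]

end Pool.Agent.RD
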