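import Mathlib

/-!
MP_0db6a9_al. `SuperClosed`: closure under algebraic functions of `r` variables.
`AlgSub M r`: any `r` elements of `M` lie in an algebraically closed subfield of `M`.
`stage`, `Mr`: the fields `M_r^s`, `M_r` of the problem.
-/

namespace Pool.Agent.RD

open Polynomial

/-- Any `r` elements of `M` lie in a common algebraically closed subfield of `M`. -/
def AlgSub (M : Type*) [Field M] (r : ℕ) : Prop :=
  ∀ t : Fin r → M, ∃ F : Subfield M, IsAlgClosed F ∧ ∀ j, t j ∈ F

/-- `M` contains every element of `K` that is algebraic over `k(t_1, ..., t_r)`, `t_i ∈ M`. -/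
def SuperClosed (k K : Type*) [Field k] [Field K] [Algebra k K] (r : ℕ)
    (M : IntermediateField k K) : Prop :=
  ∀ t : Fin r → K, (∀ j, t j ∈ M) → ∀ y : K,
    IsAlgebraic (IntermediateField.adjoin k (Set.range t)) y → y ∈ M

/-- `IsIn M v`: the element `v` of the extension `L` of `M` lies in `M`. -/
def IsIn (M : Type*) {L : Type*} [Field M] [Field L] [Algebra M L] (v : L) : Prop :=
  v ∈ Set.range (algebraMap M L)

/-- The field `[t_1, ..., t_r]` of the problem: the elements of `K` algebraic over
`k(t_1, ..., t_r)`. -/
noncomputable def bracket (k K : Type*) [Field k] [Field K] [Algebra k K] {r : ℕ}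
    (t : Fin r → K) : IntermediateField k K :=
  (algebraicClosure (IntermediateField.adjoin k (Set.range t)) K).restrictScalars k

/-- The field `M_r^(s+1)` of the problem (so `stage _ 0` is `M_r^1 = k(x_1, ..., x_n)`). -/
noncomputable def stage (k K : Type*) [Field k] [Field K] [Algebra k K] {n : ℕ}
    (x : Fin n → K) (r : ℕ) : ℕ → IntermediateField k K
  | 0 => IntermediateField.adjoin k (Set.range x)
  | s + 1 => ⨆ t : {t : Fin r → K // ∀ j, t j ∈ stage k K x r s}, bracket k K t.1

/-- The field `M_r` of the problem, the union of the fields `M_r^s`. -/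
noncomputable def Mr (k K : Type*) [Field k] [Field K] [Algebra k K] {n : ℕ}
    (x : Fin n → K) (r : ℕ) : IntermediateField k K :=
  ⨆ s : ℕ, stage k K x r s

end Pool.Agent.RD
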