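import Pool.Agent.Lib.RD.Sub

/-!
MP_0db6a9_al, module Scale (paper: team-store MP_0db6a9_al_paper.md).
isIn_of_relation: if all `c i` (`i ∈ S`) vanish then `v ^ N = 0`, `v = 0` (if `N = 0` then `S = ∅` and
`1 = 0`: impossible). Otherwise take `m ∈ S` with `c m ≠ 0` and `l` with `l ^ (N - m) = 1 / c m` (exists_root_pow); `w = l v`
satisfies `w ^ N = ∑ (c i * l ^ (N - i)) w ^ i` with coefficient 1 at `m`; apply exists_sub_finset to `S.erase m` and
isIn_of_root to `X ^ N - ∑ ...`; then isIn_of_smul.
isIn_of_natDegree_le: the minimal polynomial gives such a relation with `S = range (natDegree)`.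
-/

namespace Pool.Agent.RD

open Polynomial

/-- SCALE: a monic relation with at most `r + 1` further terms is solvable in `M`. -/
theorem isIn_of_relation {M L : Type*} [Field M] [Field L] [Algebra M L] {r : ℕ}
    (h : AlgSub M r) (hr : 1 ≤ r) (N : ℕ) (S : Finset ℕ) (hS : ∀ i ∈ S, i < N)
    (hcard : S.card ≤ r + 1) (c : ℕ → M) (v : L)
    (hv : v ^ N = ∑ i ∈ S, algebraMap M L (c i) * v ^ i) : IsIn M v := by
  classical
  by_cases hv0 : v = 0
  · exact ⟨0, by rw [map_zero, hv0]⟩
  by_cases hz : ∀ i ∈ S, c i = 0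
  · exfalso
    rw [Finset.sum_eq_zero (fun i hi => by rw [hz i hi, map_zero, zero_mul])] at hv
    exact pow_ne_zero N hv0 hv
  push Not at hz
  obtain ⟨m, hmS, hm0⟩ := hz
  have hmN : m < N := hS m hmS
  obtain ⟨l, hl⟩ := exists_root_pow h hr (N - m) (by omega) (c m)⁻¹
  have hl0 : l ≠ 0 := by
    rintro rfl
    rw [zero_pow (by omega)] at hl
    exact inv_ne_zero hm0 hl.symm
  set d : ℕ → M := fun i => c i * l ^ (N - i) with hd
  have hdm : d m = 1 := by
    simp only [hd]
    rw [hl, mul_inv_cancel₀ hm0]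
  obtain ⟨F, hF, hFm⟩ := exists_sub_finset h (S.erase m)
    (by rw [Finset.card_erase_of_mem hmS]; omega) d
  have hFS : ∀ i ∈ S, d i ∈ F := by
    intro i hi
    by_cases him : i = m
    · rw [him, hdm]; exact F.one_mem
    · exact hFm i (Finset.mem_erase.2 ⟨him, hi⟩)
  set P : M[X] := X ^ N - ∑ i ∈ S, C (d i) * X ^ i with hP
  have hcoeff : ∀ n, P.coeff n = (if n = N then 1 else 0) - (if n ∈ S then d n else 0) := by
    intro n
    rw [hP, coeff_sub, coeff_X_pow, finset_sum_coeff]
    congr 1
    simp only [coeff_C_mul, coeff_X_pow, mul_ite, mul_one, mul_zero]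
    rw [Finset.sum_ite_eq]
  have hP0 : P ≠ 0 := by
    intro h0
    have h1 := hcoeff N
    rw [h0, coeff_zero, if_pos rfl, if_neg (fun hN => (hS N hN).ne rfl), sub_zero] at h1
    exact zero_ne_one h1
  have hc : ∀ i, P.coeff i ∈ F := by
    intro i
    rw [hcoeff]
    refine F.sub_mem ?_ ?_
    · split_ifs
      · exact F.one_mem
      · exact F.zero_mem
    · split_ifs with hi
      · exact hFS i hi
      · exact F.zero_mem
  refine isIn_of_smul l hl0 v (isIn_of_root F hF P hP0 hc _ ?_)
  rw [hP, map_sub, map_pow, aeval_X, map_sum, mul_pow, hv, Finset.mul_sum, sub_eq_zero]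
  refine Finset.sum_congr rfl fun i hi => ?_
  rw [map_mul, aeval_C, map_pow, aeval_X]
  simp only [hd]
  rw [map_mul, map_pow, mul_pow]
  have hi' : (algebraMap M L l) ^ N = (algebraMap M L l) ^ (N - i) * (algebraMap M L l) ^ i := by
    rw [← pow_add]
    congr 1
    have := hS i hi
    omega
  rw [hi']
  ring

/-- SCALE: elements of degree at most `r + 1` over `M` lie in `M`. -/
theorem isIn_of_natDegree_le {M L : Type*} [Field M] [Field L] [Algebra M L]
    [FiniteDimensional M L] {r : ℕ} (h : AlgSub M r) (hr : 1 ≤ r) (v : L)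
    (hv : (minpoly M v).natDegree ≤ r + 1) : IsIn M v := by
  have hint : IsIntegral M v := IsIntegral.of_finite M v
  have hmon := minpoly.monic hint
  refine isIn_of_relation h hr (minpoly M v).natDegree (Finset.range (minpoly M v).natDegree)
    (fun i hi => Finset.mem_range.1 hi) (by rw [Finset.card_range]; exact hv)
    (fun i => -(minpoly M v).coeff i) v ?_
  have h0 : aeval v (minpoly M v) = 0 := minpoly.aeval M v
  rw [aeval_eq_sum_range, Finset.sum_range_succ, hmon.coeff_natDegree, one_smul] at h0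
  rw [← eq_neg_iff_add_eq_zero] at h0
  rw [eq_neg_iff_add_eq_zero, add_comm, ← eq_neg_iff_add_eq_zero] at h0
  rw [h0, ← Finset.sum_neg_distrib]
  refine Finset.sum_congr rfl fun i _ => ?_
  rw [map_neg, Algebra.smul_def, neg_mul]

end Pool.Agent.RD
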