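import Pool.Agent.Lib.RD.Defs

/-!
MP_0db6a9_al, module Split (paper: team-store MP_0db6a9_al_paper.md).
An irreducible factor `g` of `f` has degree at most `D`; `L = AdjoinRoot g` has degree `natDegree g` over `M`, its root
lies in `M`, so `g` has a root in `M` and degree 1. `f = 0`: splits.
-/

namespace Pool.Agent.RD

open Polynomial

universe u

private theorem splits_of_irreducible_dvd_aux {M : Type u} [Field M] {f : M[X]} (hf0 : f ≠ 0)
    (h : ∀ g : M[X], Irreducible g → g ∣ f → g.degree = 1) : f.Splits := by
  induction f using WfDvdMonoid.induction_on_irreducible with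
  | zero => exact absurd rfl hf0
  | unit u hu =>
    exact Splits.of_natDegree_eq_zero (natDegree_eq_zero_of_isUnit hu)
  | mul a i ha hi ih =>
    exact (Splits.of_degree_eq_one (h i hi (dvd_mul_right i a))).mul
      (ih ha fun g hg hga => h g hg (hga.mul_left i))

/-- SPLIT: no extensions of degree at most `D` means that polynomials of degree at most `D`
split. -/
theorem splits_of_isIn {M : Type u} [Field M] (D : ℕ)
    (hD : ∀ (L : Type u) [Field L] [Algebra M L] [FiniteDimensional M L],
      Module.finrank M L ≤ D → ∀ v : L, IsIn M v) (f : M[X]) (hf : f.natDegree ≤ D) :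
    f.Splits := by
  rcases eq_or_ne f 0 with rfl | hf0
  · exact Splits.zero
  refine splits_of_irreducible_dvd_aux hf0 fun g hg hgf => ?_
  haveI : Fact (Irreducible g) := ⟨hg⟩
  haveI : FiniteDimensional M (AdjoinRoot g) := (AdjoinRoot.powerBasis hg.ne_zero).finite
  have h1 : Module.finrank M (AdjoinRoot g) = g.natDegree := by
    rw [(AdjoinRoot.powerBasis hg.ne_zero).finrank, AdjoinRoot.powerBasis_dim]
  obtain ⟨m, hm⟩ := hD (AdjoinRoot g) (by
    rw [h1]
    exact (natDegree_le_of_dvd hgf hf0).trans hf) (AdjoinRoot.root g)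
  have h2 : g.IsRoot m := by
    have h3 : aeval (AdjoinRoot.root g) g = 0 := by
      rw [AdjoinRoot.aeval_eq, AdjoinRoot.mk_self]
    rw [← hm, aeval_algebraMap_apply] at h3
    rw [IsRoot, ← coe_aeval_eq_eval]
    exact (FaithfulSMul.algebraMap_injective M (AdjoinRoot g)) (by rw [h3, map_zero])
  exact degree_eq_one_of_irreducible_of_root hg h2

end Pool.Agent.RD
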