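import Pool.Agent.Lib.RD.Defs

/-!
MP_0db6a9_al, module Sub (paper: team-store MP_0db6a9_al_paper.md).
exists_sub: pad `t` to `Fin r` (embedding of `ι` into `Fin r`, other entries 0; `r = 0`: `ι` empty, use
`h` with the empty family). isIn_of_root: `v` is a root of a nonzero polynomial with coefficients in `F`, i.e. `v` is
algebraic over `F` (`L` is an `F`-algebra through `M`; `P` is the image of a polynomial over `F`, `Polynomial.toSubring`
or `Polynomial.lifts`), and `F` is algebraically closed, so `v` is in the range of `F -> L`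
(`IsAlgClosed.algebraMap_surjective_of_isIntegral'` or split `P` over `F` and factor).
exists_root_pow: apply `exists_sub` to the one element `a`.
-/

namespace Pool.Agent.RD

open Polynomial

/-- SUB: any finite family of at most `r` elements lies in an algebraically closed subfield. -/
theorem exists_sub {M : Type*} [Field M] {r : ℕ} (h : AlgSub M r) {ι : Type*} [Fintype ι]
    (hι : Fintype.card ι ≤ r) (t : ι → M) :
    ∃ F : Subfield M, IsAlgClosed F ∧ ∀ i, t i ∈ F := by
  obtain ⟨e⟩ : Nonempty (ι ↪ Fin r) :=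
    Function.Embedding.nonempty_of_card_le (by rw [Fintype.card_fin]; exact hι)
  obtain ⟨F, hF, hm⟩ := h (Function.extend e t 0)
  refine ⟨F, hF, fun i => ?_⟩
  have h1 := hm (e i)
  rwa [e.injective.extend_apply] at h1

/-- SUB: the same for a finset of indices. -/
theorem exists_sub_finset {M : Type*} [Field M] {r : ℕ} (h : AlgSub M r) {ι : Type*}
    (s : Finset ι) (hs : s.card ≤ r) (t : ι → M) :
    ∃ F : Subfield M, IsAlgClosed F ∧ ∀ i ∈ s, t i ∈ F := by
  obtain ⟨F, hF, hm⟩ := exists_sub h (ι := s) (by rw [Fintype.card_coe]; exact hs)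
    (fun i => t i)
  exact ⟨F, hF, fun i hi => hm ⟨i, hi⟩⟩

/-- SUB: roots in `L` of a nonzero polynomial with coefficients in an algebraically closed
subfield of `M` lie in `M`. -/
theorem isIn_of_root {M L : Type*} [Field M] [Field L] [Algebra M L] (F : Subfield M)
    (hF : IsAlgClosed F) (P : M[X]) (hP : P ≠ 0) (hc : ∀ i, P.coeff i ∈ F) (v : L)
    (hv : aeval v P = 0) : IsIn M v := by
  have h1 : P ∈ Polynomial.lifts F.subtype := by
    rw [Polynomial.lifts_iff_coeff_lifts]
    exact fun n => ⟨⟨P.coeff n, hc n⟩, rfl⟩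
  obtain ⟨Q, hQ⟩ := (Polynomial.mem_lifts P).1 h1
  have hQ0 : Q ≠ 0 := by
    rintro rfl
    rw [Polynomial.map_zero] at hQ
    exact hP hQ.symm
  have hsp : Q.Splits := IsAlgClosed.splits Q
  have hr : v ∈ (Q.map ((algebraMap M L).comp F.subtype)).roots := by
    rw [mem_roots (map_ne_zero hQ0), IsRoot.def, ← Polynomial.map_map, hQ, eval_map_algebraMap]
    exact hv
  rw [hsp.roots_map] at hr
  obtain ⟨a, -, ha⟩ := Multiset.mem_map.1 hr
  exact ⟨(a : M), ha⟩

/-- SUB: `m`-th roots in `M`. -/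
theorem exists_root_pow {M : Type*} [Field M] {r : ℕ} (h : AlgSub M r) (hr : 1 ≤ r)
    (m : ℕ) (hm : 0 < m) (a : M) : ∃ b : M, b ^ m = a := by
  obtain ⟨F, hF, ha⟩ := exists_sub h (ι := Unit) (by rw [Fintype.card_unit]; exact hr)
    (fun _ => a)
  obtain ⟨z, hz⟩ := IsAlgClosed.exists_pow_nat_eq (⟨a, ha ()⟩ : F) hm
  exact ⟨z, congrArg Subtype.val hz⟩

/-- SUB: if `l v` lies in `M` for a nonzero `l` in `M` then `v` lies in `M`. -/
theorem isIn_of_smul {M L : Type*} [Field M] [Field L] [Algebra M L] (l : M) (hl : l ≠ 0)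
    (v : L) (hv : IsIn M (algebraMap M L l * v)) : IsIn M v := by
  obtain ⟨m, hm⟩ := hv
  refine ⟨l⁻¹ * m, ?_⟩
  have hl' : algebraMap M L l ≠ 0 := (map_ne_zero_iff _ (algebraMap M L).injective).2 hl
  rw [map_mul, hm, map_inv₀, ← mul_assoc, inv_mul_cancel₀ hl', one_mul]

end Pool.Agent.RD
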