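import Pool.Agent.Lib.RD.Defs

/-!
MP_0db6a9_al, module Tr (paper: team-store MP_0db6a9_al_paper.md).
trace_pow_char: the trace is the sum over the embeddings into an algebraic closure
(`trace_eq_sum_embeddings`), `sum_pow_char_pow`. trace_mul_pow: `v^(p^a) v^(p^c) = (v^(1 + p^(c-a)))^(p^a)` for `a ≤ c`.
-/

namespace Pool.Agent.RD

open Polynomial

/-- The forms `b_i(v) = Tr(v^(1+p^i))`. -/
noncomputable def bform (M : Type*) {L : Type*} [Field M] [Field L] [Algebra M L]
    (p i : ℕ) (v : L) : M := Algebra.trace M L (v ^ (1 + p ^ i))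

/-- TR: the trace commutes with Frobenius. -/
theorem trace_pow_char {M L : Type*} [Field M] [Field L] [Algebra M L] [FiniteDimensional M L]
    [Algebra.IsSeparable M L] (p : ℕ) [Fact p.Prime] [CharP M p] (k : ℕ) (v : L) :
    Algebra.trace M L (v ^ p ^ k) = (Algebra.trace M L v) ^ p ^ k := by
  have : CharP (AlgebraicClosure M) p := charP_of_injective_algebraMap
    (FaithfulSMul.algebraMap_injective M (AlgebraicClosure M)) p
  have : ExpChar (AlgebraicClosure M) p := ExpChar.prime Fact.out
  apply FaithfulSMul.algebraMap_injective M (AlgebraicClosure M)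
  rw [map_pow (algebraMap M (AlgebraicClosure M)),
    trace_eq_sum_embeddings (AlgebraicClosure M) (K := M) (L := L),
    trace_eq_sum_embeddings (AlgebraicClosure M) (K := M) (L := L), sum_pow_char_pow]
  exact Finset.sum_congr rfl fun σ _ => map_pow σ v (p ^ k)

/-- TR: `B(f^a v, f^c v)` in terms of the `b_i`. -/
theorem trace_mul_pow {M L : Type*} [Field M] [Field L] [Algebra M L] [FiniteDimensional M L]
    [Algebra.IsSeparable M L] (p : ℕ) [Fact p.Prime] [CharP M p] (a c : ℕ) (v : L) :
    Algebra.trace M L (v ^ p ^ a * v ^ p ^ c) =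
      (bform M p (max a c - min a c) v) ^ p ^ (min a c) := by
  unfold bform
  rw [← trace_pow_char]
  congr 1
  rw [← pow_mul, ← pow_add]
  congr 1
  rw [add_mul, one_mul, ← pow_add]
  rcases le_total a c with h | h
  · rw [max_eq_right h, min_eq_left h, Nat.sub_add_cancel h]
  · rw [max_eq_left h, min_eq_right h, Nat.sub_add_cancel h, add_comm]

end Pool.Agent.RD
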